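import Pool.Agent.TH809.MZ.Lim
import Pool.Agent.TH809.MZ.Gam
import Pool.Agent.H855R2.SF.Dir

set_option autoImplicit false
set_option maxHeartbeats 4000000

/-!
# The number of zeros of a Dirichlet L-function near a point, conductor aspect
-/

namespace Pool.Agent.U985.BG

open Complex Filter Topology Set
open Pool.Agent.TH809.MZ (cc mult_final pow_gauss)
open H855R2.SF (ne_one_of_prim refl_dir growth_right right_dir fe_dir)
open H370.DL (aa)

/-- a set of characters -/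
abbrev Cls : Type := (q : ℕ) → DirichletCharacter ℂ q → Prop

/-- `L(1/2 + it, χ) ≪ q^(κ+ε) (1 + |t|)^A` for the primitive characters of the class -/
def SubC (S : Cls) (κ : ℝ) : Prop := ∀ ε : ℝ, 0 < ε → ∃ C A : ℝ, ∀ (q : ℕ) [NeZero q]
  (χ : DirichletCharacter ℂ q), 1 < q → χ.IsPrimitive → S q χ → ∀ t : ℝ,
    ‖DirichletCharacter.LFunction χ ⟨1 / 2, t⟩‖ ≤ C * (1 + |t|) ^ A * (q : ℝ) ^ (κ + ε)

theorem norm_exp_sq (z : ℂ) : ‖cexp (z ^ 2)‖ = Real.exp (z.re ^ 2) * Real.exp (-z.im ^ 2) := by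
  rw [norm_exp, ← Real.exp_add]
  congr 1
  rw [sq, mul_re]
  ring

/-- the normalised function -/
noncomputable def gT {q : ℕ} [NeZero q] (χ : DirichletCharacter ℂ q) (T : ℝ) (z : ℂ) : ℂ :=
  DirichletCharacter.LFunction χ ((1 / 2 + T * I) + z) * cexp (z ^ 2)

theorem gT_diff {q : ℕ} [NeZero q] {χ : DirichletCharacter ℂ q} (h1 : χ ≠ 1) (T : ℝ) :
    Differentiable ℂ (gT χ T) := by
  unfold gT
  apply Differentiable.mul
  · exact (DirichletCharacter.differentiable_LFunction h1).comp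
      (by fun_prop : Differentiable ℂ fun z : ℂ => (1 / 2 + T * I) + z)
  · fun_prop

theorem gT_norm {q : ℕ} [NeZero q] (χ : DirichletCharacter ℂ q) (T : ℝ) (z : ℂ) :
    ‖gT χ T z‖ = ‖DirichletCharacter.LFunction χ ⟨1 / 2 + z.re, T + z.im⟩‖ *
      (Real.exp (z.re ^ 2) * Real.exp (-z.im ^ 2)) := by
  have e1 : (1 / 2 + T * I) + z = ⟨1 / 2 + z.re, T + z.im⟩ := by
    apply Complex.ext <;> simp
  unfold gT
  rw [e1, norm_mul, norm_exp_sq]

theorem one_add_abs (T y : ℝ) : 1 + |T + y| ≤ (1 + |T|) * (1 + |y|) := by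
  have h1 := abs_add_le T y
  nlinarith [abs_nonneg T, abs_nonneg y, mul_nonneg (abs_nonneg T) (abs_nonneg y)]

/-- polynomial growth in the strip -/
theorem poly_growth {q : ℕ} [NeZero q] {χ : DirichletCharacter ℂ q} (hq : 1 < q)
    (hχ : χ.IsPrimitive) : ∀ s : ℂ, -1 / 4 ≤ s.re → s.re ≤ 5 / 4 →
      ‖DirichletCharacter.LFunction χ s‖ ≤ 512 * q ^ 2 * (1 + |s.im|) ^ (2 : ℝ) := by
  have h1 := ne_one_of_prim hq hχ
  have hq0 : (1:ℝ) ≤ q := by exact_mod_cast hq.le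
  have hpos : ∀ s : ℂ, 1 / 4 ≤ s.re → s.re ≤ 5 / 4 →
      ‖DirichletCharacter.LFunction χ s‖ ≤ 16 * q * (1 + |s.im|) := by
    intro s hs hs2
    refine (growth_right h1 (by linarith)).trans ?_
    have h4 : ‖s‖ ≤ 5 / 4 + |s.im| := by
      refine (norm_le_abs_re_add_abs_im s).trans ?_
      rw [abs_of_pos (by linarith)]
      linarith
    have h5 : ((q : ℝ) + 1) / s.re ≤ 8 * q := by
      rw [div_le_iff₀ (by linarith)]
      nlinarith
    have h6 : ‖s‖ * ((q + 1) / s.re) ≤ (5 / 4 + |s.im|) * (8 * q) :=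
      mul_le_mul h4 h5 (by positivity) (by positivity)
    nlinarith [abs_nonneg s.im]
  intro s hs hs2
  have e2 : (1 + |s.im|) ^ (2 : ℝ) = (1 + |s.im|) ^ 2 := by
    rw [← Real.rpow_natCast]; norm_num
  rw [e2]
  rcases le_total (1 / 4) s.re with h | h
  · refine (hpos s h hs2).trans ?_
    have ht := abs_nonneg s.im
    have g1 : (q:ℝ) ≤ q ^ 2 := by nlinarith
    have g2 : (1 + |s.im|) ≤ (1 + |s.im|) ^ 2 := by nlinarith
    calc 16 * (q:ℝ) * (1 + |s.im|) ≤ 16 * q ^ 2 * (1 + |s.im|) ^ 2 := by gcongr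
      _ ≤ _ := by
        apply mul_le_mul_of_nonneg_right _ (by positivity)
        nlinarith
  · set x : ℝ := 1 / 2 - s.re with hx
    have h3 := refl_dir hq hχ (x := x) (t := s.im) (by linarith) (by linarith)
    have e1 : (⟨1 / 2 - x, s.im⟩ : ℂ) = s := by apply Complex.ext <;> simp [hx]
    rw [e1] at h3
    have h4 := hpos ⟨1 / 2 + x, s.im⟩ (by simp; linarith) (by simp; linarith)
    simp only at h4
    have hb : 1 ≤ (q:ℝ) * (1 + |s.im|) := by nlinarith [abs_nonneg s.im]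
    have h5 : ((q:ℝ) * (1 + |s.im|)) ^ x ≤ q * (1 + |s.im|) := by
      calc ((q:ℝ) * (1 + |s.im|)) ^ x ≤ ((q:ℝ) * (1 + |s.im|)) ^ (1:ℝ) :=
            Real.rpow_le_rpow_of_exponent_le hb (by linarith)
        _ = _ := Real.rpow_one _
    calc ‖DirichletCharacter.LFunction χ s‖ ≤ _ := h3
      _ ≤ 32 * (q * (1 + |s.im|)) * (16 * q * (1 + |s.im|)) := by gcongr
      _ = _ := by ring

/-- crude bounds in `Re s = a > 1` -/
theorem right_bounds {a : ℝ} (ha : 1 < a) : ∃ A : ℝ, 1 ≤ A ∧ ∀ (q : ℕ) [NeZero q]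
    (χ : DirichletCharacter ℂ q) (t : ℝ),
    ‖DirichletCharacter.LFunction χ ⟨a, t⟩‖ ≤ A ∧ 1 / A ≤ ‖DirichletCharacter.LFunction χ ⟨a, t⟩‖ := by
  set K := ∑' n : ℕ, 1 / (n:ℝ) ^ a with hK
  have hsum : Summable (fun n : ℕ => 1 / (n:ℝ) ^ a) := Real.summable_one_div_nat_rpow.mpr ha
  have hls : ∀ (f : ℕ → ℂ), (∀ n, ‖f n‖ ≤ 1) → ∀ t : ℝ, ‖LSeries f ⟨a, t⟩‖ ≤ K := by
    intro f hf t
    unfold LSeries
    refine tsum_of_norm_bounded hsum.hasSum ?_
    intro n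
    rcases Nat.eq_zero_or_pos n with rfl | hn
    · simp [LSeries.term]
      positivity
    · rw [LSeries.norm_term_eq]
      rw [if_neg (by omega)]
      have hn1 : (1:ℝ) ≤ n := by exact_mod_cast hn
      have h2 : 0 < (n:ℝ) ^ a := by positivity
      show ‖f n‖ / (n:ℝ) ^ a ≤ 1 / (n:ℝ) ^ a
      gcongr
      exact hf n
  refine ⟨max K 1, le_max_right _ _, fun q _ χ t => ?_⟩
  have hs1 : 1 < (⟨a, t⟩ : ℂ).re := ha
  have hA : 0 < max K 1 := lt_of_lt_of_le one_pos (le_max_right _ _)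
  have hχ : ∀ n : ℕ, ‖(fun n : ℕ => χ (n : ZMod q)) n‖ ≤ 1 := fun n => χ.norm_le_one _
  constructor
  · rw [DirichletCharacter.LFunction_eq_LSeries χ hs1]
    exact (hls _ hχ t).trans (le_max_left _ _)
  · have h1 := DirichletCharacter.LSeries.mul_mu_eq_one χ hs1
    have h2 : ‖LSeries ((fun n : ℕ => χ (n : ZMod q)) *
        (fun n : ℕ => (ArithmeticFunction.moebius n : ℂ))) ⟨a, t⟩‖ ≤ max K 1 := by
      refine (hls _ (fun n => ?_) t).trans (le_max_left _ _)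
      rw [Pi.mul_apply, norm_mul]
      have h : |ArithmeticFunction.moebius n| ≤ 1 := ArithmeticFunction.abs_moebius_le_one
      have h5 : ‖(ArithmeticFunction.moebius n : ℂ)‖ ≤ 1 := by
        rw [Complex.norm_intCast]
        exact_mod_cast h
      calc ‖χ (n : ZMod q)‖ * ‖(ArithmeticFunction.moebius n : ℂ)‖ ≤ 1 * 1 :=
            mul_le_mul (χ.norm_le_one _) h5 (norm_nonneg _) (by norm_num)
        _ = 1 := one_mul _
    rw [DirichletCharacter.LFunction_eq_LSeries χ hs1]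
    have h3 := congrArg norm h1
    rw [norm_mul, norm_one] at h3
    rw [div_le_iff₀ hA]
    calc (1 : ℝ) = _ := h3.symm
      _ ≤ _ := mul_le_mul_of_nonneg_left h2 (norm_nonneg _)

/-- the functional equation in absolute values -/
theorem fe_abs {q : ℕ} [NeZero q] {χ : DirichletCharacter ℂ q} (hq : 1 < q) (hχ : χ.IsPrimitive)
    {x T : ℝ} (hx0 : 1 / 2 < x) (hx1 : x ≤ 3 / 4) : ∃ a : ℂ, (a = 0 ∨ a = 1) ∧
    ‖DirichletCharacter.LFunction χ ⟨1 / 2 - x, T⟩‖ =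
      (q : ℝ) ^ x * ‖DirichletCharacter.LFunction χ ⟨1 / 2 + x, T⟩‖ *
        (‖(Gammaℝ (⟨1 / 2 - x, T⟩ + a))⁻¹‖ * ‖Gammaℝ (⟨1 / 2 + x, -T⟩ + a)‖) := by
  refine ⟨aa χ, ?_, ?_⟩
  · unfold aa
    split_ifs <;> simp
  · have h := fe_dir hq hχ ⟨1 / 2 - x, T⟩
    simp only [Finset.univ_unique, Finset.prod_singleton, map_neg, H429.GP.aa_conj,
      sub_neg_eq_add] at h
    have e1 : (1 : ℂ) - ⟨1 / 2 - x, T⟩ = ⟨1 / 2 + x, -T⟩ := by
      apply Complex.ext
      · simp; ring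
      · simp
    have e2 : (1 : ℂ) - (starRingEnd ℂ) ⟨1 / 2 - x, T⟩ = ⟨1 / 2 + x, T⟩ := by
      apply Complex.ext
      · simp; ring
      · simp
    rw [e1, e2] at h
    have h2 := congrArg norm h
    rw [norm_mul, norm_mul, norm_mul, norm_mul, H429.GP.norm_rootNumber hχ, RCLike.norm_conj, one_mul] at h2
    have hq0 : (0 : ℝ) < q := by exact_mod_cast (by omega : 0 < q)
    have e3 : ‖(q : ℂ) ^ (1 / 2 - (⟨1 / 2 - x, T⟩ : ℂ))‖ = (q : ℝ) ^ x := by
      rw [Complex.norm_natCast_cpow_of_pos (by omega)]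
      congr 1
      rw [sub_re]
      show (1 / 2 : ℂ).re - (1 / 2 - x) = x
      have : (1 / 2 : ℂ).re = 1 / 2 := by norm_num
      rw [this]
      ring
    rw [e3] at h2
    have hG : Gammaℝ (⟨1 / 2 + x, -T⟩ + aa χ) ≠ 0 := by
      apply Gammaℝ_ne_zero_of_re_pos
      have h5 : 0 ≤ (aa χ).re := by
        unfold aa
        split_ifs <;> simp
      rw [add_re]
      show 0 < 1 / 2 + x + (aa χ).re
      linarith
    have hG' : ‖Gammaℝ (⟨1 / 2 + x, -T⟩ + aa χ)‖ ≠ 0 := norm_ne_zero_iff.2 hG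
    rw [norm_inv] at h2
    have h3 := congrArg (fun r : ℝ => r * ‖Gammaℝ (⟨1 / 2 + x, -T⟩ + aa χ)‖) h2
    beta_reduce at h3
    rw [mul_assoc, inv_mul_cancel₀ hG', mul_one] at h3
    rw [h3]
    ring

end Pool.Agent.U985.BG
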