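import Pool.Agent.U985.BG.S
import Pool.Agent.TH809.MZ.Gam
import Pool.Agent.H855R2.SF.Data
import Pool.Agent.H370R2.DirGood

set_option autoImplicit false
set_option maxHeartbeats 4000000

/-!
# Entire Artin L-functions of a given degree: the analytic data
-/

namespace Pool.Agent.U985.BG

open Complex Filter Topology Set
open Pool.Agent.TH809.MZ (pow_gauss gammaR_low)
open H855R2.SF (AFam pl refl_of_fe)

/-- The analytic data of an entire Artin L-function of degree `d` over `ℚ`: conductor `N`, gamma factor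
`∏ Γ_ℝ(s + k_j)`, `k_j ∈ {0,1}`, bounds to the right of `1` (from the Euler product), functional
equation. -/
structure AL (d : ℕ) where
  N : ℕ
  k : Fin d → ℕ
  W : ℂ
  L : ℂ → ℂ
  one_le : 1 ≤ N
  k_le : ∀ j, k j = 0 ∨ k j = 1
  W_norm : ‖W‖ = 1
  diff : Differentiable ℂ L
  right : ∀ a : ℝ, 1 < a → ∀ s : ℂ, a ≤ s.re →
    ‖L s‖ ≤ ‖riemannZeta (a : ℂ)‖ ^ d ∧ (‖riemannZeta (a : ℂ)‖ ^ d)⁻¹ ≤ ‖L s‖
  fe : ∀ s : ℂ, L s * ∏ j, (Gammaℝ (1 - s + (k j : ℂ)))⁻¹ =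
    W * (N : ℂ) ^ (1 / 2 - s) * (starRingEnd ℂ) (L (1 - (starRingEnd ℂ) s)) *
      ∏ j, (Gammaℝ (s + (k j : ℂ)))⁻¹
  order : ∃ A : ℝ, ∀ s : ℂ, -1 / 4 ≤ s.re → s.re ≤ 5 / 4 →
    ‖L s‖ ≤ Real.exp (A * (1 + |s.im|) ^ A)

/-- the conductor at height `t` -/
noncomputable def QQ {d : ℕ} (A : AL d) (t : ℝ) : ℝ := A.N * (1 + |t|) ^ d

theorem QQ_one {d : ℕ} (A : AL d) (t : ℝ) : 1 ≤ QQ A t := by
  unfold QQ
  have h1 : (1 : ℝ) ≤ A.N := by exact_mod_cast A.one_le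
  have h2 : (1 : ℝ) ≤ (1 + |t|) ^ d := one_le_pow₀ (by linarith [abs_nonneg t])
  nlinarith

theorem QQ_shift {d : ℕ} (A : AL d) (t u : ℝ) : QQ A (t + u) ≤ (1 + |u|) ^ (d : ℝ) * QQ A t := by
  unfold QQ
  rw [Real.rpow_natCast]
  have h2 : 1 + |t + u| ≤ (1 + |u|) * (1 + |t|) := by
    have := abs_add_le t u
    nlinarith [abs_nonneg t, abs_nonneg u, mul_nonneg (abs_nonneg t) (abs_nonneg u)]
  have h3 : (1 + |t + u|) ^ d ≤ ((1 + |u|) * (1 + |t|)) ^ d := pow_le_pow_left₀ (by positivity) h2 d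
  rw [mul_pow] at h3
  calc (A.N : ℝ) * (1 + |t + u|) ^ d ≤ A.N * ((1 + |u|) ^ d * (1 + |t|) ^ d) := by gcongr
    _ = _ := by ring

/-- finite products of numbers `≥ 1` increase -/
theorem prod_mono_real {ι : Type*} [DecidableEq ι] {F G : Finset ι} (h : F ⊆ G) {f : ι → ℝ}
    (hf : ∀ i, 1 ≤ f i) : ∏ i ∈ F, f i ≤ ∏ i ∈ G, f i := by
  rw [← Finset.prod_sdiff h]
  have h1 : 1 ≤ ∏ i ∈ G \ F, f i := by
    apply Finset.prod_induction _ (fun x : ℝ => 1 ≤ x)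
    · intro a b ha hb
      nlinarith
    · exact le_rfl
    · intro i _
      exact hf i
  have h2 : 0 ≤ ∏ i ∈ F, f i := Finset.prod_nonneg fun i _ => by linarith [hf i]
  nlinarith

/-- the finite parts of the Euler product of the zeta function -/
theorem zeta_part {a : ℝ} (ha : 1 < a) : 1 ≤ ‖riemannZeta (a : ℂ)‖ ∧ ∀ F : Finset Nat.Primes,
    ∏ p ∈ F, (1 - ((p : ℕ) : ℝ) ^ (-a))⁻¹ ≤ ‖riemannZeta (a : ℂ)‖ := by
  classical
  have hz := riemannZeta_eulerProduct_hasProd (s := (a : ℂ)) (by simpa using ha)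
  have hz' := hz.norm
  set f : Nat.Primes → ℝ := fun p => ‖(1 - ((p : ℕ) : ℂ) ^ (-(a : ℂ)))⁻¹‖ with hf
  have hpa : ∀ p : Nat.Primes, 0 < ((p : ℕ) : ℝ) ^ (-a) ∧ ((p : ℕ) : ℝ) ^ (-a) < 1 := by
    intro p
    have hp1 : (1 : ℝ) < ((p : ℕ) : ℝ) := by exact_mod_cast p.2.one_lt
    exact ⟨by positivity, Real.rpow_lt_one_of_one_lt_of_neg hp1 (by linarith)⟩
  have hfv : ∀ p : Nat.Primes, f p = (1 - ((p : ℕ) : ℝ) ^ (-a))⁻¹ := by
    intro p
    simp only [hf]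
    have e1 : ((p : ℕ) : ℂ) ^ (-(a : ℂ)) = ((((p : ℕ) : ℝ) ^ (-a) : ℝ) : ℂ) := by
      rw [Complex.ofReal_cpow (Nat.cast_nonneg _)]
      push_cast
      rfl
    rw [e1, ← ofReal_one, ← ofReal_sub, ← ofReal_inv, Complex.norm_real, Real.norm_eq_abs,
      abs_of_pos]
    rw [inv_pos]
    linarith [(hpa p).2]
  have hf1 : ∀ p, 1 ≤ f p := by
    intro p
    rw [hfv]
    exact (one_le_inv₀ (by linarith [(hpa p).2])).2 (by linarith [(hpa p).1])
  have hpart : ∀ F : Finset Nat.Primes, ∏ p ∈ F, f p ≤ ‖riemannZeta (a : ℂ)‖ := by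
    intro F
    apply ge_of_tendsto hz'
    filter_upwards [eventually_ge_atTop F] with G hG
    exact prod_mono_real hG hf1
  refine ⟨by simpa using hpart ∅, fun F => ?_⟩
  have := hpart F
  simpa only [hfv] using this

/-- two-sided bounds on a line `Re s = a > 1` -/
theorem right_AL (d : ℕ) {a : ℝ} (ha : 1 < a) : ∃ B : ℝ, 1 ≤ B ∧ ∀ (A : AL d) (s : ℂ), a ≤ s.re →
    ‖A.L s‖ ≤ B ∧ 1 / B ≤ ‖A.L s‖ := by
  refine ⟨‖riemannZeta (a : ℂ)‖ ^ d, one_le_pow₀ (zeta_part ha).1, fun A s hs => ?_⟩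
  rw [one_div]
  exact A.right a ha s hs

/-- the reflection -/
theorem refl_AL {d : ℕ} (A : AL d) {x t : ℝ} (hx0 : 0 ≤ x) (hx1 : x ≤ 3 / 4) :
    ‖A.L ⟨1 / 2 - x, t⟩‖ ≤ (32 : ℝ) ^ d * QQ A t ^ x * ‖A.L ⟨1 / 2 + x, t⟩‖ := by
  have hmu : ∀ j : Fin d, ((fun j : Fin d => -((A.k j : ℕ) : ℂ)) j).re < 1 / 2 := by
    intro j
    simp only [neg_re, natCast_re]
    have : (0 : ℝ) ≤ (A.k j : ℝ) := Nat.cast_nonneg _
    linarith
  have h := refl_of_fe (m := d) (N := A.N) (by have := A.one_le; omega)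
    (fun j : Fin d => -((A.k j : ℕ) : ℂ)) hmu (root := A.W) A.W_norm (f := A.L)
    (by
      intro s
      have := A.fe s
      simpa only [map_neg, map_natCast, sub_neg_eq_add] using this) (t := t) hx0 hx1
  refine h.trans ?_
  apply mul_le_mul_of_nonneg_right _ (norm_nonneg _)
  have h1 : ∀ j : Fin d, 1 + ‖-((A.k j : ℕ) : ℂ) - t * I‖ ≤ 2 * (1 + |t|) := by
    intro j
    have h2 : ‖-((A.k j : ℕ) : ℂ) - t * I‖ ≤ ‖((A.k j : ℕ) : ℂ)‖ + |t| := by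
      refine (norm_sub_le _ _).trans ?_
      rw [norm_neg, norm_mul, Complex.norm_real, Real.norm_eq_abs, norm_I, mul_one]
    have h3 : ‖((A.k j : ℕ) : ℂ)‖ ≤ 1 := by
      rcases A.k_le j with h | h <;> rw [h] <;> simp
    linarith [abs_nonneg t]
  have h2 : ∏ j : Fin d, (1 + ‖-((A.k j : ℕ) : ℂ) - t * I‖) ≤ 2 ^ d * (1 + |t|) ^ d := by
    calc ∏ j : Fin d, (1 + ‖-((A.k j : ℕ) : ℂ) - t * I‖) ≤ ∏ _j : Fin d, (2 * (1 + |t|)) :=
          Finset.prod_le_prod (fun _ _ => by positivity) fun j _ => h1 j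
      _ = 2 ^ d * (1 + |t|) ^ d := by simp [mul_pow]
  have hN0 : (0 : ℝ) ≤ A.N := Nat.cast_nonneg _
  have hd : (1 : ℝ) ≤ 2 ^ d := one_le_pow₀ (by norm_num)
  calc (16 : ℝ) ^ d * ((A.N : ℝ) * ∏ j : Fin d, (1 + ‖-((A.k j : ℕ) : ℂ) - t * I‖)) ^ x
      ≤ 16 ^ d * (2 ^ d * QQ A t) ^ x := by
        apply mul_le_mul_of_nonneg_left _ (by positivity)
        apply Real.rpow_le_rpow _ _ hx0
        · apply mul_nonneg hN0
          exact Finset.prod_nonneg fun _ _ => by positivity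
        · unfold QQ
          calc (A.N : ℝ) * ∏ j : Fin d, (1 + ‖-((A.k j : ℕ) : ℂ) - t * I‖)
              ≤ A.N * (2 ^ d * (1 + |t|) ^ d) := mul_le_mul_of_nonneg_left h2 hN0
            _ = _ := by ring
    _ = 16 ^ d * ((2 ^ d) ^ x * QQ A t ^ x) := by
        rw [Real.mul_rpow (by positivity) (by linarith [QQ_one A t])]
    _ ≤ 16 ^ d * ((2 ^ d) ^ (1 : ℝ) * QQ A t ^ x) := by
        apply mul_le_mul_of_nonneg_left _ (by positivity)
        apply mul_le_mul_of_nonneg_right _ (by have := QQ_one A t; positivity)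
        exact Real.rpow_le_rpow_of_exponent_le hd (by linarith)
    _ = _ := by
        rw [Real.rpow_one, show (32 : ℝ) = 16 * 2 by norm_num, mul_pow]
        ring

/-- the family -/
theorem afam (d : ℕ) : AFam (ι := AL d) d (fun A => A.L) (fun A t => QQ A t) where
  m0 := Nat.cast_nonneg _
  Q1 := QQ_one
  Qs := QQ_shift
  diff := fun A => A.diff
  order := fun A => A.order
  right := by
    intro δ hδ
    obtain ⟨B, hB1, hB⟩ := right_AL d (a := 1 + δ) (by linarith)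
    refine ⟨B, fun A s hs => ?_⟩
    refine (hB A s hs).1.trans ?_
    apply le_mul_of_one_le_right (by linarith)
    exact Real.one_le_rpow (QQ_one A _) hδ.le
  refl := ⟨(32 : ℝ) ^ d, by positivity, fun A x t hx0 hx1 => refl_AL A hx0 hx1⟩

/-- the convexity bound -/
theorem convex_AL (d : ℕ) (ε : ℝ) (hε : 0 < ε) : ∃ C : ℝ, 0 ≤ C ∧ ∀ (A : AL d) (t : ℝ),
    ‖A.L ⟨1 / 2, t⟩‖ ≤ C * QQ A t ^ (1 / 4 + ε) := by
  set δ : ℝ := min ε (1 / 4) with hδ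
  have hδ0 : 0 < δ := by positivity
  have hδ1 : δ ≤ 1 / 4 := min_le_right _ _
  have hδ2 : δ ≤ ε := min_le_left _ _
  obtain ⟨B, hB1, hB⟩ := right_AL d (a := 1 + δ) (by linarith)
  obtain ⟨C, hC0, hC⟩ := pl (afam d) (a := -δ) (b := 1 + δ) (ea := 1 / 2 + δ) (eb := 0)
    (Ca := (32 : ℝ) ^ d * B) (Cb := B) (by linarith) (by linarith) (by linarith) (by linarith) le_rfl
    (by positivity) (by linarith)
  refine ⟨C, hC0, fun A t => ?_⟩
  have h1 := hC A (fun u => by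
      have := refl_AL A (x := 1 / 2 + δ) (t := u) (by linarith) (by linarith)
      have e1 : (1 / 2 - (1 / 2 + δ)) = -δ := by ring
      have e2 : (1 / 2 + (1 / 2 + δ)) = 1 + δ := by ring
      rw [e1, e2] at this
      have h2 := (hB A ⟨1 + δ, u⟩ le_rfl).1
      have hQ := QQ_one A u
      calc ‖A.L ⟨-δ, u⟩‖ ≤ _ := this
        _ ≤ (32 : ℝ) ^ d * QQ A u ^ (1 / 2 + δ) * B := by gcongr
        _ = _ := by ring)
    (fun u => by
      rw [Real.rpow_zero, mul_one]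
      exact (hB A ⟨1 + δ, u⟩ le_rfl).1)
    ⟨1 / 2, t⟩ (by show -δ ≤ 1 / 2; linarith) (by show 1 / 2 ≤ 1 + δ; linarith)
  refine h1.trans ?_
  apply mul_le_mul_of_nonneg_left _ hC0
  show QQ A t ^ ((1 / 2 + δ) + (0 - (1 / 2 + δ)) / (1 + δ - -δ) * (1 / 2 - -δ)) ≤ QQ A t ^ (1 / 4 + ε)
  apply Real.rpow_le_rpow_of_exponent_le (QQ_one A t)
  have e3 : (1 / 2 + δ) + (0 - (1 / 2 + δ)) / (1 + δ - -δ) * (1 / 2 - -δ) = (1 / 2 + δ) / 2 := by
    have : (1 + δ - -δ) ≠ 0 := by linarith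
    field_simp
    ring
  rw [e3]
  linarith

/-- the lower bound of the quotient of the gamma factors, at all heights -/
theorem gam_low_all {x : ℝ} (hx0 : 1 / 2 < x) (hx1 : x ≤ 3 / 4) {k : ℕ} (hk : k = 0 ∨ k = 1) :
    ∃ c : ℝ, 0 < c ∧ ∀ t : ℝ, c * (1 + |t|) ^ x ≤
      ‖(Gammaℝ (⟨1 / 2 - x, t⟩ + (k : ℂ)))⁻¹‖ * ‖Gammaℝ (⟨1 / 2 + x, -t⟩ + (k : ℂ))‖ := by
  set F : ℝ → ℝ := fun t => ‖(Gammaℝ (⟨1 / 2 - x, t⟩ + (k : ℂ)))⁻¹‖ *
    ‖Gammaℝ (⟨1 / 2 + x, -t⟩ + (k : ℂ))‖ with hF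
  have hk0 : (0 : ℝ) ≤ (k : ℝ) := Nat.cast_nonneg _
  have hne1 : ∀ t : ℝ, Gammaℝ (⟨1 / 2 + x, -t⟩ + (k : ℂ)) ≠ 0 := by
    intro t
    apply Gammaℝ_ne_zero_of_re_pos
    rw [add_re, natCast_re]
    show 0 < 1 / 2 + x + (k : ℝ)
    linarith
  have hne2 : ∀ t : ℝ, Gammaℝ (⟨1 / 2 - x, t⟩ + (k : ℂ)) ≠ 0 := by
    intro t
    rcases hk with rfl | rfl
    · rw [Nat.cast_zero, add_zero]
      intro h
      rw [Gammaℝ_eq_zero_iff] at h
      obtain ⟨n, hn⟩ := h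
      have h3 := congrArg re hn
      have h4 : (-(2 * (n : ℂ))).re = -(2 * (n : ℝ)) := by simp
      rw [h4] at h3
      have h5 : 1 / 2 - x = -(2 * (n : ℝ)) := h3
      rcases Nat.eq_zero_or_pos n with h6 | h6
      · subst h6
        push_cast at h5
        linarith
      · have : (1 : ℝ) ≤ n := by exact_mod_cast h6
        linarith
    · apply Gammaℝ_ne_zero_of_re_pos
      rw [add_re, natCast_re]
      show 0 < 1 / 2 - x + ((1 : ℕ) : ℝ)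
      push_cast
      linarith
  have hmk : ∀ a : ℝ, Continuous fun t : ℝ => (⟨a, t⟩ : ℂ) := by
    intro a
    have e : (fun t : ℝ => (⟨a, t⟩ : ℂ)) = fun t : ℝ => (a : ℂ) + t * I := by
      funext t
      apply Complex.ext <;> simp
    rw [e]
    fun_prop
  have hc1 : Continuous fun t : ℝ => (Gammaℝ (⟨1 / 2 - x, t⟩ + (k : ℂ)))⁻¹ :=
    differentiable_Gammaℝ_inv.continuous.comp ((hmk _).add continuous_const)
  have hc2 : Continuous fun t : ℝ => (Gammaℝ (⟨1 / 2 + x, -t⟩ + (k : ℂ)))⁻¹ :=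
    differentiable_Gammaℝ_inv.continuous.comp (((hmk (1 / 2 + x)).comp continuous_neg).add continuous_const)
  have hFc : Continuous F := by
    apply hc1.norm.mul
    have e : (fun t : ℝ => ‖Gammaℝ (⟨1 / 2 + x, -t⟩ + (k : ℂ))‖) =
        fun t : ℝ => ‖(Gammaℝ (⟨1 / 2 + x, -t⟩ + (k : ℂ)))⁻¹‖⁻¹ := by
      funext t
      rw [norm_inv, inv_inv]
    rw [e]
    apply hc2.norm.inv₀
    intro t
    exact norm_ne_zero_iff.2 (inv_ne_zero (hne1 t))
  have hFpos : ∀ t, 0 < F t := by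
    intro t
    have a1 := norm_pos_iff.2 (inv_ne_zero (hne2 t))
    have a2 := norm_pos_iff.2 (hne1 t)
    exact mul_pos a1 a2
  obtain ⟨t0, -, ht0⟩ := (isCompact_Icc (a := (-1 : ℝ)) (b := 1)).exists_isMinOn ⟨0, by norm_num⟩
    hFc.continuousOn
  refine ⟨min (1 / 2000) (F t0 / 2), lt_min (by norm_num) (by have := hFpos t0; positivity), fun t => ?_⟩
  rcases le_total 1 |t| with h | h
  · set w : ℂ := ⟨1 / 2 - x, t⟩ + (k : ℂ) with hw
    have hwim : w.im = t := by rw [hw, add_im, natCast_im, add_zero]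
    have hwre : -2 ≤ w.re := by
      rw [hw, add_re, natCast_re]
      show -2 ≤ 1 / 2 - x + (k : ℝ)
      linarith
    have h1 := gammaR_low (w := w) (x := x) (by linarith) (by linarith) hwre (by rw [hwim]; exact h)
    rw [hwim] at h1
    have e2 : ‖Gammaℝ (w + 2 * x)‖ = ‖Gammaℝ (⟨1 / 2 + x, -t⟩ + (k : ℂ))‖ := by
      have e3 : ⟨1 / 2 + x, -t⟩ + (k : ℂ) = (starRingEnd ℂ) (w + 2 * x) := by
        apply Complex.ext
        · simp [hw]; ring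
        · simp [hw]
      rw [e3, Gammaℝ_def, Gammaℝ_def, norm_mul, norm_mul,
        Complex.norm_cpow_eq_rpow_re_of_pos Real.pi_pos, Complex.norm_cpow_eq_rpow_re_of_pos Real.pi_pos]
      have e4 : (-(starRingEnd ℂ) (w + 2 * x) / 2).re = (-(w + 2 * x) / 2).re := by
        simp
      have e5 : (starRingEnd ℂ) (w + 2 * x) / 2 = (starRingEnd ℂ) ((w + 2 * x) / 2) := by
        rw [map_div₀, map_ofNat]
      rw [e4, e5, Complex.Gamma_conj, Complex.norm_conj]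
    rw [e2] at h1
    have h3 : (1 + |t|) ^ x ≤ 2 * |t| ^ x := by
      calc (1 + |t|) ^ x ≤ (2 * |t|) ^ x := Real.rpow_le_rpow (by positivity) (by linarith) (by linarith)
        _ = 2 ^ x * |t| ^ x := Real.mul_rpow (by norm_num) (by positivity)
        _ ≤ 2 ^ (1 : ℝ) * |t| ^ x := by
            apply mul_le_mul_of_nonneg_right _ (by positivity)
            exact Real.rpow_le_rpow_of_exponent_le (by norm_num) (by linarith)
        _ = _ := by rw [Real.rpow_one]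
    calc min (1 / 2000) (F t0 / 2) * (1 + |t|) ^ x ≤ 1 / 2000 * (2 * |t| ^ x) := by
          apply mul_le_mul (min_le_left _ _) h3 (by positivity) (by norm_num)
      _ ≤ 1 / 2000 * (2 * (1000 * (‖Gammaℝ (⟨1 / 2 + x, -t⟩ + (k : ℂ))‖ * ‖(Gammaℝ w)⁻¹‖))) := by
          gcongr
      _ = _ := by ring
  · have h1 : F t0 ≤ F t := ht0 (abs_le.1 h)
    have h3 : (1 + |t|) ^ x ≤ 2 := by
      calc (1 + |t|) ^ x ≤ 2 ^ x := Real.rpow_le_rpow (by positivity) (by linarith) (by linarith)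
        _ ≤ 2 ^ (1 : ℝ) := Real.rpow_le_rpow_of_exponent_le (by norm_num) (by linarith)
        _ = 2 := Real.rpow_one 2
    have hF0 := hFpos t0
    calc min (1 / 2000) (F t0 / 2) * (1 + |t|) ^ x ≤ F t0 / 2 * 2 :=
          mul_le_mul (min_le_right _ _) h3 (by positivity) (by positivity)
      _ = F t0 := by ring
      _ ≤ F t := h1

/-- the lower bound of the L-functions on the left -/
theorem left_AL (d : ℕ) {x : ℝ} (hx0 : 1 / 2 < x) (hx1 : x ≤ 3 / 4) : ∃ c : ℝ, 0 < c ∧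
    ∀ (A : AL d) (t : ℝ), c * QQ A t ^ x ≤ ‖A.L ⟨1 / 2 - x, t⟩‖ := by
  obtain ⟨B, hB1, hB⟩ := right_AL d (a := 1 / 2 + x) (by linarith)
  obtain ⟨c0, hc0, h0⟩ := gam_low_all hx0 hx1 (k := 0) (Or.inl rfl)
  obtain ⟨c1, hc1, h1⟩ := gam_low_all hx0 hx1 (k := 1) (Or.inr rfl)
  set c : ℝ := min c0 c1 with hc
  have hcpos : 0 < c := lt_min hc0 hc1
  refine ⟨c ^ d / B, by positivity, fun A t => ?_⟩
  have hfe := A.fe ⟨1 / 2 - x, t⟩
  have e1 : (1 : ℂ) - ⟨1 / 2 - x, t⟩ = ⟨1 / 2 + x, -t⟩ := by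
    apply Complex.ext
    · simp; ring
    · simp
  have e2 : (1 : ℂ) - (starRingEnd ℂ) ⟨1 / 2 - x, t⟩ = ⟨1 / 2 + x, t⟩ := by
    apply Complex.ext
    · simp; ring
    · simp
  rw [e1, e2] at hfe
  have h2 := congrArg norm hfe
  rw [norm_mul, norm_mul, norm_mul, norm_mul, A.W_norm, RCLike.norm_conj, one_mul, norm_prod,
    norm_prod] at h2
  have e3 : ‖(A.N : ℂ) ^ (1 / 2 - (⟨1 / 2 - x, t⟩ : ℂ))‖ = (A.N : ℝ) ^ x := by
    rw [Complex.norm_natCast_cpow_of_pos (by have := A.one_le; omega)]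
    congr 1
    rw [sub_re]
    show (1 / 2 : ℂ).re - (1 / 2 - x) = x
    have : (1 / 2 : ℂ).re = 1 / 2 := by norm_num
    rw [this]
    ring
  rw [e3] at h2
  have hG : ∀ j, 0 < ‖Gammaℝ (⟨1 / 2 + x, -t⟩ + (A.k j : ℂ))‖ := by
    intro j
    apply norm_pos_iff.2
    apply Gammaℝ_ne_zero_of_re_pos
    rw [add_re, natCast_re]
    show 0 < 1 / 2 + x + (A.k j : ℝ)
    have : (0 : ℝ) ≤ (A.k j : ℝ) := Nat.cast_nonneg _
    linarith
  have hGp : 0 < ∏ j, ‖Gammaℝ (⟨1 / 2 + x, -t⟩ + (A.k j : ℂ))‖ := Finset.prod_pos fun j _ => hG j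
  have e4 : ∏ j, ‖(Gammaℝ (⟨1 / 2 + x, -t⟩ + (A.k j : ℂ)))⁻¹‖ =
      (∏ j, ‖Gammaℝ (⟨1 / 2 + x, -t⟩ + (A.k j : ℂ))‖)⁻¹ := by
    rw [← Finset.prod_inv_distrib]
    apply Finset.prod_congr rfl
    intro j _
    rw [norm_inv]
  rw [e4, ← div_eq_mul_inv, div_eq_iff hGp.ne'] at h2
  rw [h2]
  have h3 : c ^ d * ((1 + |t|) ^ d) ^ x ≤ (∏ j, ‖(Gammaℝ (⟨1 / 2 - x, t⟩ + (A.k j : ℂ)))⁻¹‖) *
      ∏ j, ‖Gammaℝ (⟨1 / 2 + x, -t⟩ + (A.k j : ℂ))‖ := by
    rw [← Finset.prod_mul_distrib]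
    have e5 : c ^ d * ((1 + |t|) ^ d) ^ x = ∏ _j : Fin d, (c * (1 + |t|) ^ x) := by
      rw [Finset.prod_const, Finset.card_univ, Fintype.card_fin, mul_pow]
      congr 1
      rw [← Real.rpow_natCast, ← Real.rpow_natCast, ← Real.rpow_mul (by positivity),
        ← Real.rpow_mul (by positivity), mul_comm]
    rw [e5]
    apply Finset.prod_le_prod (fun _ _ => by positivity)
    intro j _
    have hle : ∀ c' : ℝ, c ≤ c' → c * (1 + |t|) ^ x ≤ c' * (1 + |t|) ^ x := fun c' hc' =>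
      mul_le_mul_of_nonneg_right hc' (by positivity)
    rcases A.k_le j with h | h
    · rw [h]
      exact (hle c0 (min_le_left _ _)).trans (h0 t)
    · rw [h]
      exact (hle c1 (min_le_right _ _)).trans (h1 t)
  have hR := (hB A ⟨1 / 2 + x, t⟩ le_rfl).2
  have hN0 : (0 : ℝ) ≤ A.N := Nat.cast_nonneg _
  have hB0 : 0 < B := by linarith
  calc c ^ d / B * QQ A t ^ x = (A.N : ℝ) ^ x * (1 / B) * (c ^ d * ((1 + |t|) ^ d) ^ x) := by
        unfold QQ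
        rw [Real.mul_rpow hN0 (by positivity)]
        ring
    _ ≤ (A.N : ℝ) ^ x * ‖A.L ⟨1 / 2 + x, t⟩‖ *
        ((∏ j, ‖(Gammaℝ (⟨1 / 2 - x, t⟩ + (A.k j : ℂ)))⁻¹‖) *
          ∏ j, ‖Gammaℝ (⟨1 / 2 + x, -t⟩ + (A.k j : ℂ))‖) := by
        apply mul_le_mul _ h3 (by positivity) (by positivity)
        exact mul_le_mul_of_nonneg_left hR (by positivity)
    _ = _ := by ring

end Pool.Agent.U985.BG
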