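import Pool.Agent.U985.BG.G
import Pool.Agent.U985.BG.D

set_option autoImplicit false
set_option maxHeartbeats 4000000

/-!
# Local zero density for entire Artin L-functions
-/

namespace Pool.Agent.U985.BG

open Complex Filter Topology Set
open Pool.Agent.TH809.MZ (pow_gauss)
open H855R2.SF (AFam pl)

/-- `L(1/2+it) ≪ (N (1+|t|)^d)^(κ+ε)` on a class -/
def SubA {d : ℕ} (S : AL d → Prop) (κ : ℝ) : Prop := ∀ ε : ℝ, 0 < ε → ∃ C : ℝ, ∀ A : AL d, S A →
  ∀ t : ℝ, ‖A.L ⟨1 / 2, t⟩‖ ≤ C * QQ A t ^ (κ + ε)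

theorem sub_quarter (d : ℕ) : SubA (d := d) (fun _ => True) (1 / 4) := by
  intro ε hε
  obtain ⟨C, -, hC⟩ := convex_AL d ε hε
  exact ⟨C, fun A _ t => hC A t⟩

theorem QQ_gauss {d : ℕ} (A : AL d) (T y : ℝ) {r : ℝ} (hr : 0 ≤ r) :
    QQ A (T + y) ^ r * Real.exp (-y ^ 2) ≤ Real.exp ((d * r) ^ 2) * QQ A T ^ r := by
  have hQ := QQ_one A T
  have hQ' := QQ_one A (T + y)
  have h1 : QQ A (T + y) ^ r ≤ (1 + |y|) ^ (d * r : ℝ) * QQ A T ^ r := by
    calc QQ A (T + y) ^ r ≤ ((1 + |y|) ^ (d : ℝ) * QQ A T) ^ r :=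
          Real.rpow_le_rpow (by linarith) (QQ_shift A T y) hr
      _ = ((1 + |y|) ^ (d : ℝ)) ^ r * QQ A T ^ r := Real.mul_rpow (by positivity) (by linarith)
      _ = _ := by rw [← Real.rpow_mul (by positivity)]
  have h2 := pow_gauss (r := d * r) (by positivity) y
  calc QQ A (T + y) ^ r * Real.exp (-y ^ 2)
      ≤ ((1 + |y|) ^ (d * r : ℝ) * QQ A T ^ r) * Real.exp (-y ^ 2) := by gcongr
    _ = ((1 + |y|) ^ (d * r : ℝ) * Real.exp (-y ^ 2)) * QQ A T ^ r := by ring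
    _ ≤ _ := by gcongr

/-- polynomial growth in the strip -/
theorem growth_AL (d : ℕ) : ∃ C : ℝ, 0 ≤ C ∧ ∀ (A : AL d) (s : ℂ), -1 / 4 ≤ s.re → s.re ≤ 5 / 4 →
    ‖A.L s‖ ≤ C * QQ A s.im ^ (3 / 4 : ℝ) := by
  obtain ⟨B, hB1, hB⟩ := right_AL d (a := 5 / 4) (by norm_num)
  obtain ⟨C, hC0, hC⟩ := pl (afam d) (a := -1 / 4) (b := 5 / 4) (ea := 3 / 4) (eb := 0)
    (Ca := (32 : ℝ) ^ d * B) (Cb := B) (by norm_num) (by norm_num) (by norm_num) (by norm_num) le_rfl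
    (by positivity) (by linarith)
  refine ⟨C, hC0, fun A s hs1 hs2 => ?_⟩
  have h1 := hC A (fun u => by
      have := refl_AL A (x := 3 / 4) (t := u) (by norm_num) (by norm_num)
      have e1 : ((1 : ℝ) / 2 - 3 / 4) = -1 / 4 := by norm_num
      have e2 : ((1 : ℝ) / 2 + 3 / 4) = 5 / 4 := by norm_num
      rw [e1, e2] at this
      have h2 := (hB A ⟨5 / 4, u⟩ le_rfl).1
      have hQ := QQ_one A u
      calc ‖A.L ⟨-1 / 4, u⟩‖ ≤ _ := this
        _ ≤ (32 : ℝ) ^ d * QQ A u ^ (3 / 4 : ℝ) * B := by gcongr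
        _ = _ := by ring)
    (fun u => by
      rw [Real.rpow_zero, mul_one]
      exact (hB A ⟨5 / 4, u⟩ le_rfl).1)
    s hs1 hs2
  refine h1.trans ?_
  apply mul_le_mul_of_nonneg_left _ hC0
  apply Real.rpow_le_rpow_of_exponent_le (QQ_one A _)
  have : ((0 : ℝ) - 3 / 4) / (5 / 4 - -1 / 4) * (s.re - -1 / 4) ≤ 0 := by
    apply mul_nonpos_of_nonpos_of_nonneg
    · norm_num
    · linarith
  linarith

/-- the normalised function -/
noncomputable def fT {d : ℕ} (A : AL d) (T : ℝ) (z : ℂ) : ℂ :=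
  A.L ((1 / 2 + T * I) + z) * cexp (z ^ 2)

theorem fT_diff {d : ℕ} (A : AL d) (T : ℝ) : Differentiable ℂ (fT A T) := by
  unfold fT
  apply Differentiable.mul
  · exact A.diff.comp (by fun_prop : Differentiable ℂ fun z : ℂ => (1 / 2 + T * I) + z)
  · fun_prop

theorem fT_norm {d : ℕ} (A : AL d) (T : ℝ) (z : ℂ) :
    ‖fT A T z‖ = ‖A.L ⟨1 / 2 + z.re, T + z.im⟩‖ *
      (Real.exp (z.re ^ 2) * Real.exp (-z.im ^ 2)) := by
  have e1 : (1 / 2 + T * I) + z = ⟨1 / 2 + z.re, T + z.im⟩ := by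
    apply Complex.ext <;> simp
  unfold fT
  rw [e1, norm_mul, norm_exp_sq]

theorem countA {d : ℕ} {S : AL d → Prop} {κ s v ε : ℝ} (h0 : 0 ≤ κ) (h1 : κ ≤ 1 / 4) (hs0 : 0 < s)
    (hs1 : s < 1) (hv0 : 0 ≤ v) (hv1 : v < 1 / 2) (hg : SubA S κ) (hε : 0 < ε) :
    ∃ h C : ℝ, 0 < h ∧ ∀ A : AL d, S A → ∀ (T : ℝ) (F : Finset ℂ),
      (∀ x ∈ F, v ≤ |x.re| ∧ |x.re| ≤ 1 / 2 ∧ |x.im| ≤ h) →
      ∑ x ∈ F, (analyticOrderNatAt (fT A T) x : ℝ) ≤
        (gg κ s (Real.cos (Real.pi * v)) + ε) * Real.log (QQ A T) + C := by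
  obtain ⟨δ, ε₂, h, hδ0, hδ1, hε₂0, hε₂1, hh0, H⟩ := dens_final h0 h1 hs0 hs1 hv0 hv1 hε
  obtain ⟨C0, hC0⟩ := hg (ε₂ / 2) (half_pos hε₂0)
  obtain ⟨A1, hA1, hR1⟩ := right_AL d (a := 1 + δ) (by linarith)
  obtain ⟨A2, hA2, hR2⟩ := right_AL d (a := 1 + δ / 2) (by linarith)
  obtain ⟨c, hc, hL⟩ := left_AL d (x := 1 / 2 + δ / 2) (by linarith) (by linarith)
  obtain ⟨G0, hG0, hG⟩ := growth_AL d
  set r : ℝ := κ + ε₂ / 2 with hr
  have hr0 : 0 ≤ r := by rw [hr]; positivity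
  set b : ℝ := 1 / 2 + δ with hb
  have hb0 : 1 / 2 < b := by rw [hb]; linarith
  have hb1 : b ≤ 3 / 4 := by rw [hb]; linarith
  set C1 : ℝ := max C0 1 with hC1
  have hC11 : 1 ≤ C1 := le_max_right _ _
  set A3 : ℝ := C1 * Real.exp ((d * r) ^ 2) with hA3
  have hA30 : 0 < A3 := by positivity
  set A4 : ℝ := 32 ^ d * A1 ^ 2 * Real.exp 2 * Real.exp ((d * b) ^ 2) with hA4
  have hA40 : 0 < A4 := by positivity
  set A5 : ℝ := A2 / c with hA5
  have hA20 : 0 < A2 := by linarith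
  have hA50 : 0 < A5 := by positivity
  set x0 : ℝ := 1 / 2 + δ / 2 with hx0
  set K : ℝ := 1 + A3 ^ 2 + A4 + A5 with hK
  have hK1 : 1 ≤ K := by
    have := sq_nonneg A3
    rw [hK]; linarith
  obtain ⟨C, hC⟩ := H K hK1
  refine ⟨h, C, hh0, fun A hS T F hF => ?_⟩
  set Q : ℝ := QQ A T with hQ
  have hQ1 : 1 ≤ Q := QQ_one A T
  have hQ0 : 0 < Q := by linarith
  apply hC Q hQ1 (fT A T) (fT_diff A T) F hF
  · -- boundedness in the strip
    refine ⟨G0 * Real.exp 1 * (Real.exp ((d * (3 / 4)) ^ 2) * Q ^ (3 / 4 : ℝ)), fun z hz => ?_⟩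
    have hz' := abs_le.1 hz
    rw [fT_norm]
    have h3 := hG A ⟨1 / 2 + z.re, T + z.im⟩ (by show -1 / 4 ≤ 1 / 2 + z.re; linarith)
      (by show 1 / 2 + z.re ≤ 5 / 4; linarith)
    have h5 : Real.exp (z.re ^ 2) ≤ Real.exp 1 := by
      apply Real.exp_le_exp.2
      nlinarith [abs_nonneg z.re, sq_abs z.re]
    have h6 := QQ_gauss A T z.im (r := 3 / 4) (by norm_num)
    calc ‖A.L ⟨1 / 2 + z.re, T + z.im⟩‖ * (Real.exp (z.re ^ 2) * Real.exp (-z.im ^ 2))
        ≤ (G0 * QQ A (T + z.im) ^ (3 / 4 : ℝ)) * (Real.exp 1 * Real.exp (-z.im ^ 2)) := by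
          apply mul_le_mul h3 _ (by positivity) _
          · exact mul_le_mul_of_nonneg_right h5 (Real.exp_pos _).le
          · have := QQ_one A (T + z.im)
            positivity
      _ = G0 * Real.exp 1 * (QQ A (T + z.im) ^ (3 / 4 : ℝ) * Real.exp (-z.im ^ 2)) := by ring
      _ ≤ _ := by gcongr
  · -- the critical line
    have key : ∀ z : ℂ, z.re = 0 → ‖fT A T z‖ ≤ A3 * Q ^ r := by
      intro z hz
      rw [fT_norm, hz]
      have h3 := hC0 A hS (T + z.im)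
      have h6 := QQ_gauss A T z.im (r := r) hr0
      have e0 : (1 / 2 + (0:ℝ)) = 1 / 2 := by norm_num
      have hQ' := QQ_one A (T + z.im)
      rw [e0]
      calc ‖A.L ⟨1 / 2, T + z.im⟩‖ * (Real.exp (0 ^ 2) * Real.exp (-z.im ^ 2))
          ≤ (C1 * QQ A (T + z.im) ^ r) * (Real.exp (0 ^ 2) * Real.exp (-z.im ^ 2)) := by
            apply mul_le_mul_of_nonneg_right _ (by positivity)
            refine h3.trans ?_
            apply mul_le_mul_of_nonneg_right (le_max_left _ _) (by positivity)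
        _ = C1 * (QQ A (T + z.im) ^ r * Real.exp (-z.im ^ 2)) := by
            rw [zero_pow (by norm_num), Real.exp_zero]
            ring
        _ ≤ C1 * (Real.exp ((d * r) ^ 2) * Q ^ r) := by gcongr
        _ = _ := by rw [hA3]; ring
    intro z hz
    have h3 := key z hz
    have h4 := key (-z) (by rw [neg_re, hz, neg_zero])
    have h5 : Q ^ r * Q ^ r = Q ^ (2 * κ + ε₂) := by
      rw [← Real.rpow_add hQ0]
      congr 1
      rw [hr]
      ring
    calc ‖fT A T z‖ * ‖fT A T (-z)‖ ≤ (A3 * Q ^ r) * (A3 * Q ^ r) :=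
          mul_le_mul h3 h4 (norm_nonneg _) (by positivity)
      _ = A3 ^ 2 * Q ^ (2 * κ + ε₂) := by rw [← h5]; ring
      _ ≤ K * Q ^ (2 * κ + ε₂) := by
          apply mul_le_mul_of_nonneg_right _ (by positivity)
          rw [hK]
          linarith
  · -- the boundary of the strip
    intro z hz
    have hbsq : b ^ 2 ≤ 1 := by nlinarith
    have hexpb : Real.exp (b ^ 2) ≤ Real.exp 1 := Real.exp_le_exp.2 hbsq
    have hbe : 1 / 2 + b = 1 + δ := by rw [hb]; ring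
    have h3 : ‖fT A T z‖ ≤ A1 * Real.exp 1 := by
      rw [fT_norm, hz, hbe]
      have h4 := (hR1 A ⟨1 + δ, T + z.im⟩ le_rfl).1
      have h5 : Real.exp (-z.im ^ 2) ≤ 1 := by
        rw [Real.exp_le_one_iff]
        nlinarith [sq_nonneg z.im]
      calc ‖A.L ⟨1 + δ, T + z.im⟩‖ *
            (Real.exp (b ^ 2) * Real.exp (-z.im ^ 2)) ≤ A1 * (Real.exp 1 * 1) := by gcongr
        _ = _ := by ring
    have h4 : ‖fT A T (-z)‖ ≤ 32 ^ d * A1 * Real.exp 1 * Real.exp ((d * b) ^ 2) * Q ^ b := by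
      rw [fT_norm, neg_re, neg_im, hz]
      have e0 : (1 / 2 + -b) = 1 / 2 - b := by ring
      have e1 : Real.exp ((-b) ^ 2) = Real.exp (b ^ 2) := by rw [neg_sq]
      rw [e0, e1]
      have h5 := refl_AL A (x := b) (t := T + -z.im) (by linarith) hb1
      have h6 := (hR1 A ⟨1 / 2 + b, T + -z.im⟩ (by rw [hbe])).1
      have h7 := QQ_gauss A T (-z.im) (r := b) (by linarith)
      have hQ' := QQ_one A (T + -z.im)
      calc ‖A.L ⟨1 / 2 - b, T + -z.im⟩‖ * (Real.exp (b ^ 2) * Real.exp (-(-z.im) ^ 2))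
          ≤ (32 ^ d * QQ A (T + -z.im) ^ b * A1) * (Real.exp 1 * Real.exp (-(-z.im) ^ 2)) := by
            gcongr
            exact h5.trans (by gcongr)
        _ = 32 ^ d * A1 * Real.exp 1 * (QQ A (T + -z.im) ^ b * Real.exp (-(-z.im) ^ 2)) := by ring
        _ ≤ 32 ^ d * A1 * Real.exp 1 * (Real.exp ((d * b) ^ 2) * Q ^ b) := by gcongr
        _ = _ := by ring
    have h5 : Q ^ b ≤ Q ^ (b + ε₂) := Real.rpow_le_rpow_of_exponent_le hQ1 (by linarith)
    have h6 : Real.exp 1 * Real.exp 1 = Real.exp 2 := by rw [← Real.exp_add]; norm_num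
    calc ‖fT A T z‖ * ‖fT A T (-z)‖ ≤ (A1 * Real.exp 1) *
          (32 ^ d * A1 * Real.exp 1 * Real.exp ((d * b) ^ 2) * Q ^ b) :=
          mul_le_mul h3 h4 (norm_nonneg _) (by positivity)
      _ = 32 ^ d * A1 ^ 2 * (Real.exp 1 * Real.exp 1) * Real.exp ((d * b) ^ 2) * Q ^ b := by ring
      _ = A4 * Q ^ b := by rw [h6]
      _ ≤ K * Q ^ (b + ε₂) := by
          apply mul_le_mul _ h5 (by positivity) (by linarith)
          rw [hK]
          linarith [sq_nonneg A3]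
  · -- the lower bound
    have hx0e : 1 / 2 + x0 = 1 + δ / 2 := by rw [hx0]; ring
    have h3 : 1 / A2 ≤ ‖fT A T (x0 : ℂ)‖ := by
      rw [fT_norm]
      simp only [ofReal_re, ofReal_im, add_zero]
      have h4 := (hR2 A ⟨1 / 2 + x0, T⟩ (by rw [hx0e])).2
      have h5 : 1 ≤ Real.exp (x0 ^ 2) := Real.one_le_exp (sq_nonneg _)
      have h6 : Real.exp (-(0:ℝ) ^ 2) = 1 := by norm_num
      rw [h6, mul_one]
      calc 1 / A2 ≤ ‖A.L ⟨1 / 2 + x0, T⟩‖ := h4
        _ = ‖A.L ⟨1 / 2 + x0, T⟩‖ * 1 := (mul_one _).symm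
        _ ≤ _ := mul_le_mul_of_nonneg_left h5 (norm_nonneg _)
    have h7 : c * Q ^ x0 ≤ ‖fT A T (-(x0 : ℂ))‖ := by
      rw [fT_norm]
      have e1 : (-(x0 : ℂ)).re = -x0 := by simp
      have e2 : (-(x0 : ℂ)).im = 0 := by simp
      rw [e1, e2, add_zero]
      have h5 : 1 ≤ Real.exp ((-x0) ^ 2) := Real.one_le_exp (sq_nonneg _)
      have h6 : Real.exp (-(0:ℝ) ^ 2) = 1 := by norm_num
      have e0 : (1 / 2 + -x0) = 1 / 2 - x0 := by ring
      rw [h6, mul_one, e0]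
      calc c * Q ^ x0 ≤ ‖A.L ⟨1 / 2 - x0, T⟩‖ := hL A T
        _ = _ * 1 := (mul_one _).symm
        _ ≤ _ := mul_le_mul_of_nonneg_left h5 (norm_nonneg _)
    calc K⁻¹ * Q ^ (x0 - ε₂) ≤ A5⁻¹ * Q ^ x0 := by
          apply mul_le_mul _ _ (by positivity) (by positivity)
          · apply inv_anti₀ hA50
            rw [hK]
            linarith [sq_nonneg A3]
          · exact Real.rpow_le_rpow_of_exponent_le hQ1 (by linarith)
      _ = (1 / A2) * (c * Q ^ x0) := by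
          rw [hA5]
          field_simp
      _ ≤ _ := mul_le_mul h3 h7 (by positivity) (norm_nonneg _)

/-- the order of `fT` and the order of the L-function -/
theorem order_fT {d : ℕ} (A : AL d) (T : ℝ) (s : ℂ) :
    analyticOrderAt (fT A T) (s - (1 / 2 + T * I)) = analyticOrderAt A.L s := by
  set c : ℂ := 1 / 2 + T * I with hc
  set x : ℂ := s - c with hx
  have hcx : c + x = s := by rw [hx]; ring
  have e1 : fT A T = (A.L ∘ fun z => c + z) * fun z => cexp (z ^ 2) := by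
    funext z
    rfl
  have ha1 : AnalyticAt ℂ (A.L ∘ fun z => c + z) x :=
    (A.diff.comp (by fun_prop : Differentiable ℂ fun z : ℂ => c + z)).analyticAt x
  have ha2 : AnalyticAt ℂ (fun z => cexp (z ^ 2)) x := by
    have : Differentiable ℂ fun z : ℂ => cexp (z ^ 2) := by fun_prop
    exact this.analyticAt x
  have h2 : analyticOrderAt (fun z => cexp (z ^ 2)) x = 0 := by
    rw [ha2.analyticOrderAt_eq_zero]
    exact exp_ne_zero _
  rw [e1, analyticOrderAt_mul ha1 ha2, h2, add_zero]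
  have h3 : analyticOrderAt (A.L ∘ fun z => c + z) x = analyticOrderAt A.L (c + x) := by
    apply analyticOrderAt_comp_of_deriv_ne_zero (g := fun z : ℂ => c + z)
    · have : Differentiable ℂ fun z : ℂ => c + z := by fun_prop
      exact this.analyticAt x
    · rw [deriv_const_add, deriv_id'']
      exact one_ne_zero
  rw [h3, hcx]

theorem order_ne_topA {d : ℕ} (A : AL d) (s : ℂ) : analyticOrderAt A.L s ≠ ⊤ := by
  have hL : AnalyticOnNhd ℂ A.L univ := fun z _ => A.diff.analyticAt z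
  have h2 : analyticOrderAt A.L 2 ≠ ⊤ := by
    have h3 : A.L 2 ≠ 0 := by
      obtain ⟨B, hB1, hB⟩ := right_AL d (a := 2) (by norm_num)
      have h4 := (hB A 2 (by norm_num)).2
      intro h5
      rw [h5, norm_zero] at h4
      have : 0 < 1 / B := by positivity
      linarith
    rw [(hL 2 (mem_univ _)).analyticOrderAt_eq_zero.2 h3]
    exact ENat.zero_ne_top
  exact hL.analyticOrderAt_ne_top_of_isPreconnected isPreconnected_univ (mem_univ _) (mem_univ _) h2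

/-- the zeros with `0 < Re s < 1`, `|Re s - 1/2| ≥ v`, `|Im s - T| ≤ h` -/
def ZA {d : ℕ} (A : AL d) (v T h : ℝ) : Set ℂ :=
  {s : ℂ | A.L s = 0 ∧ 0 < s.re ∧ s.re < 1 ∧ v ≤ |s.re - 1 / 2| ∧ |s.im - T| ≤ h}

/-- **the number of zeros in a short window** -/
theorem windowA {d : ℕ} {S : AL d → Prop} {κ s v ε : ℝ} (h0 : 0 ≤ κ) (h1 : κ ≤ 1 / 4) (hs0 : 0 < s)
    (hs1 : s < 1) (hv0 : 0 ≤ v) (hv1 : v < 1 / 2) (hg : SubA S κ) (hε : 0 < ε) :
    ∃ h C : ℝ, 0 < h ∧ ∀ A : AL d, S A → ∀ T : ℝ, (ZA A v T h).Finite ∧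
      ((∑ᶠ s ∈ ZA A v T h, analyticOrderNatAt A.L s : ℕ) : ℝ) ≤
        (gg κ s (Real.cos (Real.pi * v)) + ε) * Real.log (QQ A T) + C := by
  classical
  obtain ⟨h, C, hh, H⟩ := countA h0 h1 hs0 hs1 hv0 hv1 hg hε
  refine ⟨h, C, hh, fun A hS T => ?_⟩
  have hfin : ∀ F : Finset ℂ, (F : Set ℂ) ⊆ ZA A v T h →
      ∑ s ∈ F, (analyticOrderNatAt A.L s : ℝ) ≤
        (gg κ s (Real.cos (Real.pi * v)) + ε) * Real.log (QQ A T) + C := by
    intro F hF
    have h2 := H A hS T (F.image fun s => s - (1 / 2 + T * I)) (by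
      intro x hx
      obtain ⟨s, hs, rfl⟩ := Finset.mem_image.1 hx
      have h3 := hF hs
      have e1 : (s - (1 / 2 + T * I)).re = s.re - 1 / 2 := by simp
      have e2 : (s - (1 / 2 + T * I)).im = s.im - T := by simp
      rw [e1, e2]
      refine ⟨h3.2.2.2.1, ?_, h3.2.2.2.2⟩
      have h4 := h3.2.1
      have h5 := h3.2.2.1
      rw [abs_le]
      constructor <;> linarith)
    rw [Finset.sum_image (fun x _ y _ hxy => sub_left_injective hxy)] at h2
    refine le_trans (le_of_eq ?_) h2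
    apply Finset.sum_congr rfl
    intro s hs
    unfold analyticOrderNatAt
    rw [order_fT A T s]
  have hone : ∀ s ∈ ZA A v T h, (1:ℝ) ≤ (analyticOrderNatAt A.L s : ℝ) := by
    intro s hs
    have h2 : analyticOrderAt A.L s ≠ 0 := (A.diff.analyticAt s).analyticOrderAt_ne_zero.2 hs.1
    have h3 := order_ne_topA A s
    have h4 : analyticOrderNatAt A.L s ≠ 0 := by
      intro h5
      apply h2
      rw [← Nat.cast_analyticOrderNatAt h3, h5]
      rfl
    exact_mod_cast Nat.one_le_iff_ne_zero.2 h4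
  have hZfin : (ZA A v T h).Finite := by
    by_contra hinf
    have hinf' : (ZA A v T h).Infinite := hinf
    obtain ⟨n, hn⟩ := exists_nat_gt ((gg κ s (Real.cos (Real.pi * v)) + ε) * Real.log (QQ A T) + C)
    obtain ⟨F, hF, hcard⟩ := hinf'.exists_subset_card_eq n
    have h2 := hfin F hF
    have h3 : (n:ℝ) ≤ ∑ s ∈ F, (analyticOrderNatAt A.L s : ℝ) := by
      calc (n:ℝ) = ∑ _s ∈ F, (1:ℝ) := by rw [Finset.sum_const, hcard]; simp
        _ ≤ _ := Finset.sum_le_sum fun s hs => hone s (hF hs)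
    linarith
  refine ⟨hZfin, ?_⟩
  rw [finsum_mem_eq_finite_toFinset_sum _ hZfin]
  push_cast
  apply hfin
  intro s hs
  exact (hZfin.mem_toFinset).1 hs

end Pool.Agent.U985.BG
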