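import Pool.Agent.U985.BG.H

set_option autoImplicit false
set_option maxHeartbeats 4000000

/-!
# Local zero density: the symmetry, the constants
-/

namespace Pool.Agent.U985.BG

open Complex Filter Topology Set

/-- the symmetry of the zeros -/
theorem order_symmA {d : ℕ} (A : AL d) {s : ℂ} (hs0 : 0 < s.re) (hs1 : s.re < 1) :
    analyticOrderAt A.L (1 - (starRingEnd ℂ) s) = analyticOrderAt A.L s := by
  have hN0 : (A.N : ℂ) ≠ 0 := by
    have := A.one_le
    exact_mod_cast (by omega : A.N ≠ 0)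
  set g : ℂ → ℂ := fun z => ∏ j, (Gammaℝ (z + (A.k j : ℂ)))⁻¹ with hg
  have hgd : Differentiable ℂ g := by
    intro z
    simp only [hg]
    apply DifferentiableAt.fun_finsetProd
    intro j _
    have h3 : Differentiable ℂ fun z : ℂ => z + (A.k j : ℂ) := by fun_prop
    exact (differentiable_Gammaℝ_inv.comp h3).differentiableAt
  have hgne : ∀ z : ℂ, 0 < z.re → g z ≠ 0 := by
    intro z hz
    simp only [hg]
    apply Finset.prod_ne_zero_iff.2
    intro j _
    apply inv_ne_zero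
    apply Gammaℝ_ne_zero_of_re_pos
    rw [add_re, natCast_re]
    have : (0 : ℝ) ≤ (A.k j : ℝ) := Nat.cast_nonneg _
    linarith
  set u : ℂ → ℂ := fun z => A.W * (A.N : ℂ) ^ (1 / 2 - z) with hu
  have hune : ∀ z, u z ≠ 0 := by
    intro z
    apply mul_ne_zero
    · intro h
      have := A.W_norm
      rw [h, norm_zero] at this
      exact zero_ne_one this
    · rw [Ne, cpow_eq_zero_iff]
      intro h
      exact hN0 h.1
  have hud : Differentiable ℂ u := by
    intro z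
    simp only [hu]
    apply DifferentiableAt.const_mul
    exact DifferentiableAt.const_cpow (by fun_prop) (Or.inl hN0)
  have h1z : Differentiable ℂ fun z : ℂ => 1 - z := by fun_prop
  have a1 : AnalyticAt ℂ A.L s := A.diff.analyticAt s
  have a2 : AnalyticAt ℂ (fun z => g (1 - z)) s := (hgd.comp h1z).analyticAt s
  have a3 : AnalyticAt ℂ u s := hud.analyticAt s
  have a4' : AnalyticAt ℂ A.L (1 - (starRingEnd ℂ) s) := A.diff.analyticAt _
  have a4 : AnalyticAt ℂ (H370.DL.refl A.L) s := H370.DL.analyticAt_refl a4'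
  have a5 : AnalyticAt ℂ g s := hgd.analyticAt s
  have z2 : analyticOrderAt (fun z => g (1 - z)) s = 0 := by
    rw [a2.analyticOrderAt_eq_zero]
    exact hgne _ (by rw [sub_re, one_re]; linarith)
  have z3 : analyticOrderAt u s = 0 := by
    rw [a3.analyticOrderAt_eq_zero]
    exact hune s
  have z5 : analyticOrderAt g s = 0 := by
    rw [a5.analyticOrderAt_eq_zero]
    exact hgne s hs0
  have hfun : A.L * (fun z => g (1 - z)) = u * (H370.DL.refl A.L * g) := by
    funext z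
    have h := A.fe z
    simp only [Pi.mul_apply, hu, hg, H370.DL.refl]
    rw [h]
    ring
  have hord := congrArg (fun F => analyticOrderAt F s) hfun
  beta_reduce at hord
  rw [analyticOrderAt_mul a1 a2, analyticOrderAt_mul a3 (a4.mul a5), analyticOrderAt_mul a4 a5,
    z2, z3, z5, add_zero, zero_add, add_zero, H370.DL.order_refl a4'] at hord
  exact hord.symm

/-- the zeros with `Re s ≥ σ`, `|Im s - T| ≤ h` -/
def ZR {d : ℕ} (A : AL d) (σ T h : ℝ) : Set ℂ :=
  {s : ℂ | A.L s = 0 ∧ σ ≤ s.re ∧ s.re < 1 ∧ |s.im - T| ≤ h}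

theorem half_le {d : ℕ} (A : AL d) {σ T h : ℝ} (hσ : 1 / 2 < σ)
    (hfin : (ZA A (σ - 1 / 2) T h).Finite) : (ZR A σ T h).Finite ∧
      2 * ∑ᶠ s ∈ ZR A σ T h, analyticOrderNatAt A.L s ≤
        ∑ᶠ s ∈ ZA A (σ - 1 / 2) T h, analyticOrderNatAt A.L s := by
  classical
  have hsub : ZR A σ T h ⊆ ZA A (σ - 1 / 2) T h := by
    rintro s ⟨h1, h2, h3, h4⟩
    refine ⟨h1, by linarith, h3, ?_, h4⟩
    rw [abs_of_pos (by linarith)]
    linarith
  have f2 := hfin.subset hsub
  refine ⟨f2, ?_⟩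
  rw [finsum_mem_eq_finite_toFinset_sum _ hfin, finsum_mem_eq_finite_toFinset_sum _ f2]
  have hsymm : ∀ s ∈ f2.toFinset, analyticOrderAt A.L (1 - (starRingEnd ℂ) s) =
      analyticOrderAt A.L s ∧ A.L (1 - (starRingEnd ℂ) s) = 0 := by
    intro s hs
    obtain ⟨h1, h2, h3, h4⟩ := f2.mem_toFinset.1 hs
    have k3 := order_symmA A (s := s) (by linarith) h3
    refine ⟨k3, ?_⟩
    have k4 : analyticOrderAt A.L s ≠ 0 := (A.diff.analyticAt s).analyticOrderAt_ne_zero.2 h1
    rw [← k3] at k4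
    exact (A.diff.analyticAt _).analyticOrderAt_ne_zero.1 k4
  have hinj : Function.Injective fun s : ℂ => 1 - (starRingEnd ℂ) s := by
    intro a b hab
    have h1 : 1 - (starRingEnd ℂ) a = 1 - (starRingEnd ℂ) b := hab
    have h2 : (starRingEnd ℂ) a = (starRingEnd ℂ) b := by linear_combination -h1
    exact (starRingEnd ℂ).injective h2
  have himg : ∑ s ∈ f2.toFinset.image (fun s => 1 - (starRingEnd ℂ) s), analyticOrderNatAt A.L s =
      ∑ s ∈ f2.toFinset, analyticOrderNatAt A.L s := by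
    rw [Finset.sum_image (fun x _ y _ hxy => hinj hxy)]
    apply Finset.sum_congr rfl
    intro s hs
    unfold analyticOrderNatAt
    rw [(hsymm s hs).1]
  have hdisj : Disjoint f2.toFinset (f2.toFinset.image (fun s => 1 - (starRingEnd ℂ) s)) := by
    rw [Finset.disjoint_left]
    intro s hs hs'
    obtain ⟨w, hw, rfl⟩ := Finset.mem_image.1 hs'
    have a1 := (f2.mem_toFinset.1 hs).2.1
    have a2 := (f2.mem_toFinset.1 hw).2.1
    rw [sub_re, one_re, conj_re] at a1
    linarith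
  calc 2 * ∑ s ∈ f2.toFinset, analyticOrderNatAt A.L s
      = ∑ s ∈ f2.toFinset ∪ f2.toFinset.image (fun s => 1 - (starRingEnd ℂ) s),
          analyticOrderNatAt A.L s := by
        rw [Finset.sum_union hdisj, himg]
        ring
    _ ≤ _ := by
        apply Finset.sum_le_sum_of_subset
        intro s hs
        rcases Finset.mem_union.1 hs with hs | hs
        · exact hfin.mem_toFinset.2 (hsub (f2.mem_toFinset.1 hs))
        · obtain ⟨w, hw, rfl⟩ := Finset.mem_image.1 hs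
          obtain ⟨h1, h2, h3, h4⟩ := f2.mem_toFinset.1 hw
          apply hfin.mem_toFinset.2
          have e1 : (1 - (starRingEnd ℂ) w).re = 1 - w.re := by simp
          have e2 : (1 - (starRingEnd ℂ) w).im = w.im := by simp
          refine ⟨(hsymm w hw).2, ?_, ?_, ?_, ?_⟩
          · rw [e1]; linarith
          · rw [e1]; linarith
          · rw [e1, abs_of_nonpos (by linarith)]; linarith
          · rw [e2]; exact h4

/-- the constant -/
noncomputable def DD (κ u : ℝ) : ℝ :=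
  if 1 - 4 * κ < u ^ 2 then Real.sqrt (u ^ 2 - (1 - 4 * κ) ^ 2) / (2 * Real.pi)
  else 2 * κ / Real.pi * (u / Real.sqrt (1 - u ^ 2))

theorem gg_cont {κ u s0 : ℝ} (h : 0 < 1 - (s0 * u) ^ 2) : ContinuousAt (fun s => gg κ s u) s0 := by
  unfold gg
  apply ContinuousAt.div (by fun_prop)
  · apply ContinuousAt.mul continuousAt_const
    apply Real.continuous_sqrt.continuousAt.comp
    fun_prop
  · have := Real.sqrt_pos.2 h
    have := Real.pi_pos
    positivity

/-- the optimal parameter -/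
theorem exists_s {κ u ε : ℝ} (h0 : 0 < κ) (h1 : κ ≤ 1 / 4) (hu0 : 0 < u) (hu1 : u ≤ 1) (hε : 0 < ε) :
    ∃ s : ℝ, 0 < s ∧ s < 1 ∧ gg κ s u ≤ DD κ u + ε := by
  have hpi := Real.pi_pos
  by_cases hc : 1 - 4 * κ < u ^ 2
  · have e0 : DD κ u = Real.sqrt (u ^ 2 - (1 - 4 * κ) ^ 2) / (2 * Real.pi) := by
      unfold DD
      rw [if_pos hc]
    rw [e0]
    rcases eq_or_lt_of_le h1 with hk | hk
    · -- `κ = 1/4`
      have hl : ContinuousAt (fun s => gg κ s u) 0 := gg_cont (by norm_num)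
      have e1 : gg κ 0 u = u / (2 * Real.pi) := by
        unfold gg
        simp
      have e2 : Real.sqrt (u ^ 2 - (1 - 4 * κ) ^ 2) = u := by
        rw [hk]
        norm_num
        exact Real.sqrt_sq hu0.le
      rw [e2]
      have h2 : ∀ᶠ s in 𝓝[>] (0 : ℝ), gg κ s u < u / (2 * Real.pi) + ε :=
        (hl.tendsto.mono_left nhdsWithin_le_nhds).eventually_lt_const (by rw [e1]; linarith)
      have h3 : ∀ᶠ s in 𝓝[>] (0 : ℝ), s < 1 :=
        nhdsWithin_le_nhds (gt_mem_nhds (by norm_num))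
      have h4 : ∀ᶠ s in 𝓝[>] (0 : ℝ), 0 < s := eventually_mem_nhdsWithin
      obtain ⟨s, a, b, c⟩ := (h2.and (h3.and h4)).exists
      exact ⟨s, c, b, a.le⟩
    · -- interior
      set a : ℝ := 1 - 4 * κ with ha
      have ha0 : 0 < a := by rw [ha]; linarith
      have hs0 : 0 < a / u ^ 2 := by positivity
      have hs1 : a / u ^ 2 < 1 := by rw [div_lt_one (by positivity)]; exact hc
      refine ⟨a / u ^ 2, hs0, hs1, ?_⟩
      set y : ℝ := 1 - (a / u ^ 2 * u) ^ 2 with hy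
      have e1 : (a / u ^ 2 * u) ^ 2 = a / u ^ 2 * a := by field_simp
      have hau : a < 1 := by nlinarith
      have hy0 : 0 < y := by
        rw [hy, e1]
        nlinarith
      have e2 : u ^ 2 - a ^ 2 = u ^ 2 * y := by
        rw [hy]
        field_simp
      have e3 : gg κ (a / u ^ 2) u = y * u / (2 * Real.pi * Real.sqrt y) := by
        unfold gg
        rw [← ha, ← hy]
        congr 2
        rw [hy, e1]
        ring
      have e4 : Real.sqrt (u ^ 2 * y) = u * Real.sqrt y := by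
        rw [Real.sqrt_mul (by positivity), Real.sqrt_sq hu0.le]
      have e5 : Real.sqrt y * Real.sqrt y = y := Real.mul_self_sqrt hy0.le
      have hsq : 0 < Real.sqrt y := Real.sqrt_pos.2 hy0
      have e6 : y * u / (2 * Real.pi * Real.sqrt y) = u * Real.sqrt y / (2 * Real.pi) := by
        rw [div_eq_div_iff (by positivity) (by positivity)]
        linear_combination (-(2 * Real.pi * u)) * e5
      rw [e3, e2, e4, e6]
      linarith
  · have e0 : DD κ u = 2 * κ / Real.pi * (u / Real.sqrt (1 - u ^ 2)) := by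
      unfold DD
      rw [if_neg hc]
    rw [e0]
    rw [not_lt] at hc
    have hu2 : 0 < 1 - u ^ 2 := by linarith
    have hl : ContinuousAt (fun s => gg κ s u) 1 := gg_cont (by rw [one_mul]; exact hu2)
    have hsq : 0 < Real.sqrt (1 - u ^ 2) := Real.sqrt_pos.2 hu2
    have e1 : gg κ 1 u = 2 * κ / Real.pi * (u / Real.sqrt (1 - u ^ 2)) := by
      unfold gg
      rw [one_mul]
      generalize Real.sqrt (1 - u ^ 2) = w at hsq ⊢
      field_simp
      ring
    have h2 : ∀ᶠ s in 𝓝[<] (1 : ℝ), gg κ s u < 2 * κ / Real.pi * (u / Real.sqrt (1 - u ^ 2)) + ε :=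
      (hl.tendsto.mono_left nhdsWithin_le_nhds).eventually_lt_const (by rw [e1]; linarith)
    have h3 : ∀ᶠ s in 𝓝[<] (1 : ℝ), 0 < s :=
      nhdsWithin_le_nhds (lt_mem_nhds (by norm_num))
    have h4 : ∀ᶠ s in 𝓝[<] (1 : ℝ), s < 1 := eventually_mem_nhdsWithin
    obtain ⟨s, a, b, c⟩ := (h2.and (h3.and h4)).exists
    exact ⟨s, b, c, a.le⟩

theorem cos_shift (σ : ℝ) : Real.cos (Real.pi * (σ - 1 / 2)) = Real.sin (Real.pi * σ) := by
  rw [← Real.cos_sub_pi_div_two]
  congr 1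
  ring

/-- **zeros off the line** -/
theorem offA {d : ℕ} {S : AL d → Prop} {κ σ ε : ℝ} (h0 : 0 < κ) (h1 : κ ≤ 1 / 4) (hσ0 : 1 / 2 < σ)
    (hσ1 : σ < 1) (hg : SubA S κ) (hε : 0 < ε) :
    ∃ h C : ℝ, 0 < h ∧ ∀ A : AL d, S A → ∀ T : ℝ, (ZR A σ T h).Finite ∧
      ((∑ᶠ s ∈ ZR A σ T h, analyticOrderNatAt A.L s : ℕ) : ℝ) ≤
        (DD κ (Real.sin (Real.pi * σ)) / 2 + ε) * Real.log (QQ A T) + C := by
  have hpi := Real.pi_pos
  have hu0 : 0 < Real.sin (Real.pi * σ) := by
    apply Real.sin_pos_of_pos_of_lt_pi (by positivity)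
    nlinarith
  obtain ⟨s, hs0, hs1, hs⟩ := exists_s h0 h1 hu0 (Real.sin_le_one _) hε
  obtain ⟨h, C, hh, H⟩ := windowA (v := σ - 1 / 2) h0.le h1 hs0 hs1 (by linarith) (by linarith) hg hε
  refine ⟨h, C / 2, hh, fun A hS T => ?_⟩
  obtain ⟨g1, g2⟩ := H A hS T
  obtain ⟨k1, k2⟩ := half_le A hσ0 g1
  refine ⟨k1, ?_⟩
  have k3 : (2 : ℝ) * ((∑ᶠ s ∈ ZR A σ T h, analyticOrderNatAt A.L s : ℕ) : ℝ) ≤
      ((∑ᶠ s ∈ ZA A (σ - 1 / 2) T h, analyticOrderNatAt A.L s : ℕ) : ℝ) := by exact_mod_cast k2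
  rw [cos_shift] at g2
  have hl : 0 ≤ Real.log (QQ A T) := Real.log_nonneg (QQ_one A T)
  have k4 : (gg κ s (Real.sin (Real.pi * σ)) + ε) * Real.log (QQ A T) ≤
      (DD κ (Real.sin (Real.pi * σ)) + 2 * ε) * Real.log (QQ A T) :=
    mul_le_mul_of_nonneg_right (by linarith) hl
  linarith

/-- **all zeros** -/
theorem allA {d : ℕ} {S : AL d → Prop} {κ ε : ℝ} (h0 : 0 < κ) (h1 : κ ≤ 1 / 4) (hg : SubA S κ)
    (hε : 0 < ε) :
    ∃ h C : ℝ, 0 < h ∧ ∀ A : AL d, S A → ∀ T : ℝ, (ZA A 0 T h).Finite ∧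
      ((∑ᶠ s ∈ ZA A 0 T h, analyticOrderNatAt A.L s : ℕ) : ℝ) ≤
        (DD κ 1 + ε) * Real.log (QQ A T) + C := by
  obtain ⟨s, hs0, hs1, hs⟩ := exists_s (ε := ε / 2) h0 h1 one_pos le_rfl (by linarith)
  obtain ⟨h, C, hh, H⟩ := windowA (v := 0) (ε := ε / 2) h0.le h1 hs0 hs1 le_rfl (by norm_num) hg
    (by linarith)
  refine ⟨h, C, hh, fun A hS T => ?_⟩
  obtain ⟨g1, g2⟩ := H A hS T
  refine ⟨g1, ?_⟩
  rw [mul_zero, Real.cos_zero] at g2
  have hl : 0 ≤ Real.log (QQ A T) := Real.log_nonneg (QQ_one A T)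
  have k4 : (gg κ s 1 + ε / 2) * Real.log (QQ A T) ≤ (DD κ 1 + ε) * Real.log (QQ A T) :=
    mul_le_mul_of_nonneg_right (by linarith) hl
  linarith

end Pool.Agent.U985.BG
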