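import Pool.Agent.TH809.MZ.Lim

set_option autoImplicit false
set_option maxHeartbeats 4000000

/-!
# The number of zeros near the real axis, to the right of a given vertical line

A refinement of `TH809.MZ.mult_final`: the zeros with `|Re x| ≥ v` have a larger weight.
-/

open Complex Filter Topology Set

namespace Pool.Agent.U985.BG

open Pool.Agent.TH809.MZ

/-- the weight -/
noncomputable def wt (K u : ℝ) : ℝ := Real.sqrt (1 - (u / K) ^ 2) / u

theorem wt_anti {K u v : ℝ} (hK : 0 < K) (hu : 0 < u) (huv : u ≤ v) : wt K v ≤ wt K u := by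
  unfold wt
  have hv : 0 < v := lt_of_lt_of_le hu huv
  have h1 : Real.sqrt (1 - (v / K) ^ 2) ≤ Real.sqrt (1 - (u / K) ^ 2) := by
    apply Real.sqrt_le_sqrt
    have h2 : u / K ≤ v / K := by gcongr
    have h3 : (u / K) ^ 2 ≤ (v / K) ^ 2 := pow_le_pow_left₀ (by positivity) h2 2
    linarith
  calc Real.sqrt (1 - (v / K) ^ 2) / v ≤ Real.sqrt (1 - (u / K) ^ 2) / v := by gcongr
    _ ≤ Real.sqrt (1 - (u / K) ^ 2) / u := by gcongr

/-- the value of a Blaschke factor, with the weight -/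
theorem BB_value' {a K x x0 q : ℝ} (hK : 1 < K) (hx : 0 < Real.cos (a * x))
    (h0 : 0 < Real.cos (a * x0)) (hlt : Real.cos (a * x0) < Real.cos (a * x)) (hq0 : 0 < q)
    (hq1 : q < Real.pi / 2) (hq : Real.cos (a * x0) = K * Real.cos q) :
    ‖BB (pp a K x) q‖ ≤ Real.exp (-(2 * (Real.cos (a * x0) * wt K (Real.cos (a * x))))) := by
  have hK0 : 0 < K := by linarith
  obtain ⟨_, p, hp, g1, g2, g3⟩ := pp_real hK hx
  rw [hp]
  have hcq : Real.cos q = Real.cos (a * x0) / K := by rw [hq]; field_simp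
  have hcqlt : Real.cos q < Real.cos p := by
    rw [hcq, g3]
    exact div_lt_div_of_pos_right hlt hK0
  have hpq : p < q := by
    by_contra hc
    rw [not_lt] at hc
    have := Real.cos_le_cos_of_nonneg_of_le_pi hq0.le (by linarith) hc
    linarith
  have hsq : 0 < Real.sin q := Real.sin_pos_of_pos_of_lt_pi hq0 (by linarith [Real.pi_pos])
  have hsp : 0 < Real.sin p := Real.sin_pos_of_pos_of_lt_pi g1 (by linarith [Real.pi_pos])
  have hcp : 0 < Real.cos p := by rw [g3]; positivity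
  have hcq0 : 0 < Real.cos q := by rw [hcq]; positivity
  have hs : 0 < Real.sin (q - p) := Real.sin_pos_of_pos_of_lt_pi (by linarith) (by linarith [Real.pi_pos])
  have hs2 : 0 < Real.sin (q + p) := Real.sin_pos_of_pos_of_lt_pi (by linarith) (by linarith)
  set r : ℝ := Real.cos q * Real.sin p / (Real.sin q * Real.cos p) with hr
  have hr0 : 0 ≤ r := by positivity
  have hd : 0 < Real.sin q * Real.cos p := by positivity
  have hr1 : r < 1 := by
    rw [hr, div_lt_one hd]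
    rw [Real.sin_sub] at hs
    linarith
  have hval : ‖BB p q‖ = (1 - r) / (1 + r) := by
    unfold BB
    have e1 : sin ((q:ℂ) - p) = ((Real.sin (q - p) : ℝ) : ℂ) := by push_cast; rfl
    have e2 : sin ((q:ℂ) + (starRingEnd ℂ) p) = ((Real.sin (q + p) : ℝ) : ℂ) := by
      rw [conj_ofReal]; push_cast; rfl
    rw [e1, e2, norm_div, Complex.norm_real, Complex.norm_real, Real.norm_eq_abs, Real.norm_eq_abs,
      abs_of_pos hs, abs_of_pos hs2, Real.sin_sub, Real.sin_add, hr]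
    have hcp' := hcp.ne'
    have hsq' := hsq.ne'
    have e3 : 1 + Real.cos q * Real.sin p / (Real.sin q * Real.cos p) =
        (Real.sin q * Real.cos p + Real.cos q * Real.sin p) / (Real.sin q * Real.cos p) := by
      field_simp
    have e4 : 1 - Real.cos q * Real.sin p / (Real.sin q * Real.cos p) =
        (Real.sin q * Real.cos p - Real.cos q * Real.sin p) / (Real.sin q * Real.cos p) := by
      field_simp
    rw [e3, e4, div_div_div_cancel_right₀ hd.ne']
  rw [hval]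
  refine (exp_ratio hr0 hr1).trans ?_
  apply Real.exp_le_exp.2
  have hsin1 : Real.sqrt (1 - (Real.cos (a * x) / K) ^ 2) = Real.sin p := by
    rw [← g3]
    have := Real.sin_sq_add_cos_sq p
    have e : 1 - Real.cos p ^ 2 = Real.sin p ^ 2 := by linarith
    rw [e, Real.sqrt_sq hsp.le]
  have hrge : Real.cos (a * x0) * wt K (Real.cos (a * x)) ≤ r := by
    unfold wt
    rw [hsin1, hr, hcq, g3]
    have h3 : Real.cos (a * x0) * (Real.sin p / Real.cos (a * x)) =
        Real.cos (a * x0) / K * Real.sin p / (1 * (Real.cos (a * x) / K)) := by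
      field_simp
    rw [h3]
    apply div_le_div_of_nonneg_left (by positivity) (by positivity)
    exact mul_le_mul_of_nonneg_right (Real.sin_le_one q) (by positivity)
  linarith

/-- near the real axis the Blaschke factors are not much larger -/
theorem tube' {a K x0 q R' v : ℝ} (hK : 1 < K) (ha0 : 0 < a) (hx0 : 1 / 2 < x0) (hv : 0 ≤ v)
    (hv1 : v ≤ 1 / 2) (hax : a * x0 < Real.pi / 2) (hq0 : 0 < q)
    (hq1 : q < Real.pi / 2) (hq : Real.cos (a * x0) = K * Real.cos q)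
    (hR : R' < Real.cos (a * x0) * wt K (Real.cos (a * v))) :
    ∃ h : ℝ, 0 < h ∧ ∀ x : ℂ, v ≤ |x.re| → |x.re| ≤ 1 / 2 → |x.im| ≤ h →
      Good a K x ∧ ‖BB (pp a K x) q‖ ≤ Real.exp (-(2 * R')) := by
  have hK0 : 0 < K := by linarith
  have hKc : (K:ℂ) ≠ 0 := by exact_mod_cast hK0.ne'
  have hO : IsOpen {x : ℂ | Good a K x} := by
    have h1 : IsOpen {x : ℂ | 0 < (cos (a * x)).re} :=
      isOpen_lt continuous_const (Complex.continuous_re.comp (by fun_prop))
    have h2 : IsOpen {x : ℂ | ((cos (a * x) / K) ^ 2).re < 1} :=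
      isOpen_lt (Complex.continuous_re.comp (by fun_prop)) continuous_const
    exact h1.inter h2
  have hcont : ContinuousOn (fun x : ℂ => ‖BB (pp a K x) q‖) {x : ℂ | Good a K x} := by
    intro x hx
    obtain ⟨g1, g2, g3⟩ := pp_facts hK hx
    have hne := sin_add_ne (q := pp a K x) g1 g2 (p := (q:ℂ)) (by simpa using hq0.le)
      (by simpa using hq1.le)
    have hpc : ContinuousAt (pp a K) x := by
      unfold pp
      apply ContinuousAt.sub continuousAt_const
      have h3 : ContinuousAt th (cos (a * x) / K) := by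
        apply (th_diff.differentiableAt _).continuousAt
        have h4 : IsOpen {t : ℂ | (t ^ 2).re < 1} :=
          isOpen_lt (Complex.continuous_re.comp (continuous_pow 2)) continuous_const
        exact h4.mem_nhds hx.2
      exact ContinuousAt.comp (g := th) (f := fun x : ℂ => cos (a * x) / K) h3 (by fun_prop)
    apply ContinuousAt.continuousWithinAt
    apply ContinuousAt.norm
    unfold BB
    have d1 : ContinuousAt (fun x : ℂ => sin ((q:ℂ) - pp a K x)) x :=
      ContinuousAt.comp (g := sin) (f := fun x : ℂ => (q:ℂ) - pp a K x)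
        Complex.continuous_sin.continuousAt (continuousAt_const.sub hpc)
    have d2 : ContinuousAt (fun x : ℂ => sin ((q:ℂ) + (starRingEnd ℂ) (pp a K x))) x :=
      ContinuousAt.comp (g := sin) (f := fun x : ℂ => (q:ℂ) + (starRingEnd ℂ) (pp a K x))
        Complex.continuous_sin.continuousAt
        (continuousAt_const.add (ContinuousAt.comp (g := starRingEnd ℂ) (f := pp a K)
          Complex.continuous_conj.continuousAt hpc))
    exact ContinuousAt.div (f := fun x : ℂ => sin ((q:ℂ) - pp a K x)) d1 d2 hne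
  have hU : IsOpen ({x : ℂ | Good a K x} ∩ (fun x : ℂ => ‖BB (pp a K x) q‖) ⁻¹'
      (Iio (Real.exp (-(2 * R'))))) := hcont.isOpen_inter_preimage hO isOpen_Iio
  have hcomp : IsCompact ((fun x : ℝ => (x:ℂ)) '' ({x : ℝ | v ≤ |x|} ∩ Icc (-(1 / 2)) (1 / 2))) := by
    apply IsCompact.image _ Complex.continuous_ofReal
    apply IsCompact.inter_left isCompact_Icc
    exact isClosed_le continuous_const continuous_abs
  have hcos0 : 0 < Real.cos (a * x0) := by
    apply Real.cos_pos_of_mem_Ioo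
    constructor
    · have : 0 < a * x0 := by positivity
      linarith [Real.pi_pos]
    · exact hax
  have hsub : (fun x : ℝ => (x:ℂ)) '' ({x : ℝ | v ≤ |x|} ∩ Icc (-(1 / 2)) (1 / 2)) ⊆
      {x : ℂ | Good a K x} ∩ (fun x : ℂ => ‖BB (pp a K x) q‖) ⁻¹' (Iio (Real.exp (-(2 * R')))) := by
    rintro _ ⟨x, ⟨hxv, hx⟩, rfl⟩
    have hxv' : v ≤ |x| := hxv
    have hxa : |x| ≤ 1 / 2 := abs_le.2 hx
    have h5 : a * |x| < a * x0 := by
      apply mul_lt_mul_of_pos_left _ ha0
      linarith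
    have ecos : Real.cos (a * x) = Real.cos (a * |x|) := by
      rw [← Real.cos_abs (a * x), abs_mul, abs_of_pos ha0]
    have h6 : Real.cos (a * x0) < Real.cos (a * x) := by
      rw [ecos]
      exact Real.cos_lt_cos_of_nonneg_of_le_pi (by positivity) (by linarith [Real.pi_pos]) h5
    have hx0' : 0 < Real.cos (a * x) := hcos0.trans h6
    refine ⟨(pp_real hK hx0').1, ?_⟩
    show ‖BB (pp a K x) q‖ < Real.exp (-(2 * R'))
    refine (BB_value' hK hx0' hcos0 h6 hq0 hq1 hq).trans_lt ?_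
    apply Real.exp_lt_exp.2
    have h7 : wt K (Real.cos (a * v)) ≤ wt K (Real.cos (a * x)) := by
      apply wt_anti hK0 hx0'
      rw [ecos]
      apply Real.cos_le_cos_of_nonneg_of_le_pi (by positivity) (by linarith [Real.pi_pos])
      exact mul_le_mul_of_nonneg_left hxv' ha0.le
    have h8 := mul_le_mul_of_nonneg_left h7 hcos0.le
    linarith
  obtain ⟨r, hr, hthick⟩ := hcomp.exists_thickening_subset_open hU hsub
  refine ⟨r / 2, by positivity, fun x hx0 hx1 hx2 => ?_⟩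
  have hmem : x ∈ Metric.thickening r
      ((fun x : ℝ => (x:ℂ)) '' ({x : ℝ | v ≤ |x|} ∩ Icc (-(1 / 2)) (1 / 2))) := by
    rw [Metric.mem_thickening_iff]
    refine ⟨(x.re : ℂ), ⟨x.re, ⟨hx0, abs_le.1 hx1⟩, rfl⟩, ?_⟩
    rw [dist_eq_norm]
    have e : x - (x.re : ℂ) = x.im * I := by
      apply Complex.ext <;> simp
    rw [e, norm_mul, Complex.norm_real, norm_I, mul_one, Real.norm_eq_abs]
    linarith
  have h7 := hthick hmem
  exact ⟨h7.1, le_of_lt h7.2⟩

/-- the constant -/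
noncomputable def gg (κ s u : ℝ) : ℝ :=
  (1 - (1 - 4 * κ) * s) * u / (2 * Real.pi * Real.sqrt (1 - (s * u) ^ 2))

/-- the quantities as functions of `δ` -/
noncomputable def et (δ : ℝ) : ℝ := Real.sin (Real.pi * δ / (2 * (1 + 2 * δ)))
noncomputable def aa (δ : ℝ) : ℝ := Real.pi / (2 * (1 / 2 + δ))

theorem et_deriv : HasDerivAt et (Real.pi / 2) 0 := by
  have h1 : HasDerivAt (fun δ : ℝ => Real.pi * δ / (2 * (1 + 2 * δ))) (Real.pi / 2) 0 := by
    have h2 : HasDerivAt (fun δ : ℝ => Real.pi * δ) Real.pi 0 := by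
      simpa using (hasDerivAt_id (0:ℝ)).const_mul Real.pi
    have h3 : HasDerivAt (fun δ : ℝ => 2 * (1 + 2 * δ)) (2 * (2 * 1)) 0 :=
      (((hasDerivAt_id (0:ℝ)).const_mul 2).const_add 1).const_mul 2
    have h4 := h2.div h3 (by norm_num)
    refine h4.congr_deriv ?_
    norm_num
    field_simp
    norm_num
  have h5 := h1.sin
  simp at h5
  exact h5

/-- the quotient tends to the constant -/
theorem choose_delta {κ s v e : ℝ} (hs0 : 0 < s) (hs1 : s < 1) (hv0 : 0 ≤ v) (hv1 : v < 1 / 2)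
    (he : 0 < e) : ∃ δ : ℝ, 0 < δ ∧ δ ≤ 1 / 4 ∧
      δ / 2 + 2 * δ ^ 2 - (1 / 2 + δ - (2 * κ + δ ^ 2)) * (2 / Real.pi) * (et δ * s) ≤
        (gg κ s (Real.cos (Real.pi * v)) + e) *
          (2 * ((1 - δ) * (et δ * (Real.sqrt (1 - (s * Real.cos (aa δ * v)) ^ 2) / Real.cos (aa δ * v))))) := by
  have hpi := Real.pi_pos
  set u : ℝ := Real.cos (Real.pi * v) with hu
  have hu0 : 0 < u := by
    apply Real.cos_pos_of_mem_Ioo
    constructor
    · have : 0 ≤ Real.pi * v := by positivity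
      linarith
    · nlinarith
  have hu1 : u ≤ 1 := Real.cos_le_one _
  have hsu : 0 < 1 - (s * u) ^ 2 := by
    have : s * u < 1 := by nlinarith
    have h2 : 0 < s * u := by positivity
    nlinarith
  have hsq : 0 < Real.sqrt (1 - (s * u) ^ 2) := Real.sqrt_pos.2 hsu
  -- limits
  have l0 : Tendsto (fun δ : ℝ => δ) (𝓝[>] 0) (𝓝 0) := tendsto_nhdsWithin_of_tendsto_nhds tendsto_id
  have l1 : Tendsto (fun δ : ℝ => et δ / δ) (𝓝[>] 0) (𝓝 (Real.pi / 2)) := by
    have h1 := et_deriv.tendsto_slope_zero_right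
    have e0 : et 0 = 0 := by unfold et; simp
    simp only [zero_add, e0, sub_zero, smul_eq_mul] at h1
    refine h1.congr fun δ => ?_
    rw [div_eq_inv_mul]
  have l2 : Tendsto (fun δ : ℝ => Real.cos (aa δ * v)) (𝓝[>] 0) (𝓝 u) := by
    have h1 : ContinuousAt (fun δ : ℝ => Real.cos (aa δ * v)) 0 := by
      unfold aa
      apply Real.continuous_cos.continuousAt.comp
      apply ContinuousAt.mul _ continuousAt_const
      apply ContinuousAt.div continuousAt_const (by fun_prop) (by norm_num)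
    have h2 := h1.tendsto
    have e0 : Real.cos (aa 0 * v) = u := by
      rw [hu]
      congr 1
      unfold aa
      norm_num
    rw [e0] at h2
    exact h2.mono_left nhdsWithin_le_nhds
  have l3 : Tendsto (fun δ : ℝ => 1 / 2 + 2 * δ - (1 / 2 + δ - (2 * κ + δ ^ 2)) * (2 / Real.pi) *
      (et δ / δ * s)) (𝓝[>] 0) (𝓝 (1 / 2 + 2 * 0 - (1 / 2 + 0 - (2 * κ + 0 ^ 2)) * (2 / Real.pi) *
      (Real.pi / 2 * s))) := by
    apply Tendsto.sub
    · exact tendsto_const_nhds.add (tendsto_const_nhds.mul l0)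
    · apply Tendsto.mul
      · apply Tendsto.mul _ tendsto_const_nhds
        apply Tendsto.sub (tendsto_const_nhds.add l0)
        exact tendsto_const_nhds.add (l0.pow 2)
      · exact l1.mul tendsto_const_nhds
  have l4 : Tendsto (fun δ : ℝ => (gg κ s u + e) * (2 * ((1 - δ) * (et δ / δ *
      (Real.sqrt (1 - (s * Real.cos (aa δ * v)) ^ 2) / Real.cos (aa δ * v)))))) (𝓝[>] 0)
      (𝓝 ((gg κ s u + e) * (2 * ((1 - 0) * (Real.pi / 2 *
      (Real.sqrt (1 - (s * u) ^ 2) / u)))))) := by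
    apply Tendsto.const_mul
    apply Tendsto.const_mul
    apply Tendsto.mul (tendsto_const_nhds.sub l0)
    apply l1.mul
    apply Tendsto.div _ l2 hu0.ne'
    apply (Real.continuous_sqrt.tendsto _).comp
    exact tendsto_const_nhds.sub ((l2.const_mul s).pow 2)
  have hlt : 1 / 2 + 2 * 0 - (1 / 2 + 0 - (2 * κ + 0 ^ 2)) * (2 / Real.pi) * (Real.pi / 2 * s) <
      (gg κ s u + e) * (2 * ((1 - 0) * (Real.pi / 2 * (Real.sqrt (1 - (s * u) ^ 2) / u)))) := by
    have e1 : 1 / 2 + 2 * 0 - (1 / 2 + 0 - (2 * κ + 0 ^ 2)) * (2 / Real.pi) * (Real.pi / 2 * s) =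
        (1 - (1 - 4 * κ) * s) / 2 := by
      field_simp
      ring
    have e2 : gg κ s u * (2 * ((1 - 0) * (Real.pi / 2 * (Real.sqrt (1 - (s * u) ^ 2) / u)))) =
        (1 - (1 - 4 * κ) * s) / 2 := by
      unfold gg
      obtain ⟨w, hw⟩ : ∃ w : ℝ, w = Real.sqrt (1 - (s * u) ^ 2) := ⟨_, rfl⟩
      rw [← hw] at hsq ⊢
      field_simp
      ring
    rw [add_mul, e1, e2]
    have : 0 < e * (2 * ((1 - 0) * (Real.pi / 2 * (Real.sqrt (1 - (s * u) ^ 2) / u)))) := by
      positivity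
    linarith
  have hev := l3.eventually_lt l4 hlt
  have hsmall : ∀ᶠ δ : ℝ in 𝓝[>] 0, δ < 1 / 4 :=
    l0.eventually (gt_mem_nhds (by norm_num))
  have hpos : ∀ᶠ δ : ℝ in 𝓝[>] 0, 0 < δ := eventually_mem_nhdsWithin
  obtain ⟨δ, h1, h2, h3⟩ := (hev.and (hsmall.and hpos)).exists
  refine ⟨δ, h3, h2.le, ?_⟩
  have h4 := mul_lt_mul_of_pos_left h1 h3
  have e3 : δ * (1 / 2 + 2 * δ - (1 / 2 + δ - (2 * κ + δ ^ 2)) * (2 / Real.pi) * (et δ / δ * s)) =
      δ / 2 + 2 * δ ^ 2 - (1 / 2 + δ - (2 * κ + δ ^ 2)) * (2 / Real.pi) * (et δ * s) := by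
    field_simp
  have e4 : δ * ((gg κ s u + e) * (2 * ((1 - δ) * (et δ / δ *
      (Real.sqrt (1 - (s * Real.cos (aa δ * v)) ^ 2) / Real.cos (aa δ * v)))))) =
      (gg κ s u + e) * (2 * ((1 - δ) * (et δ *
      (Real.sqrt (1 - (s * Real.cos (aa δ * v)) ^ 2) / Real.cos (aa δ * v))))) := by
    field_simp
  rw [e3, e4] at h4
  exact h4.le

/-- **The number of zeros near the real axis with `|Re z| ≥ v`.** -/
theorem dens_final {κ s v ε : ℝ} (h0 : 0 ≤ κ) (h1 : κ ≤ 1 / 4) (hs0 : 0 < s) (hs1 : s < 1)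
    (hv0 : 0 ≤ v) (hv1 : v < 1 / 2) (hε : 0 < ε) :
    ∃ δ ε₂ h : ℝ, 0 < δ ∧ δ ≤ 1 / 4 ∧ 0 < ε₂ ∧ ε₂ ≤ δ ∧ 0 < h ∧
      ∀ A : ℝ, 1 ≤ A → ∃ C : ℝ, ∀ Q : ℝ, 1 ≤ Q →
      ∀ f : ℂ → ℂ, Differentiable ℂ f → ∀ S : Finset ℂ,
      (∀ x ∈ S, v ≤ |x.re| ∧ |x.re| ≤ 1 / 2 ∧ |x.im| ≤ h) →
      (∃ B : ℝ, ∀ z : ℂ, |z.re| ≤ 1 / 2 + δ → ‖f z‖ ≤ B) →
      (∀ z : ℂ, z.re = 0 → ‖f z‖ * ‖f (-z)‖ ≤ A * Q ^ (2 * κ + ε₂)) →
      (∀ z : ℂ, z.re = 1 / 2 + δ → ‖f z‖ * ‖f (-z)‖ ≤ A * Q ^ (1 / 2 + δ + ε₂)) →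
      (A⁻¹ * Q ^ (1 / 2 + δ / 2 - ε₂) ≤
        ‖f ((1 / 2 + δ / 2 : ℝ) : ℂ)‖ * ‖f (-((1 / 2 + δ / 2 : ℝ) : ℂ))‖) →
      ∑ x ∈ S, (analyticOrderNatAt f x : ℝ) ≤
        (gg κ s (Real.cos (Real.pi * v)) + ε) * Real.log Q + C := by
  have hpi := Real.pi_pos
  obtain ⟨δ, hδ0, hδ1, hδ⟩ := choose_delta (κ := κ) hs0 hs1 hv0 hv1 hε
  have hε₂0 : 0 < δ ^ 2 := by positivity
  have hε₂1 : δ ^ 2 ≤ δ := by nlinarith
  have hη0 : 0 < et δ := aux5 hδ0
  have hη1 : et δ ≤ 1 := Real.sin_le_one _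
  have hK : 1 < 1 / s := by rw [lt_div_iff₀ hs0]; linarith
  have hK0 : 0 < 1 / s := by linarith
  set a : ℝ := aa δ with ha
  have ha' : a = Real.pi / (2 * (1 / 2 + δ)) := rfl
  have ha0 : 0 < a := by rw [ha']; positivity
  have haπ : a ≤ Real.pi := by
    rw [ha', div_le_iff₀ (by positivity)]
    nlinarith
  have hηeq : Real.cos (a * (1 / 2 + δ / 2)) = et δ := by
    unfold et
    rw [← Real.cos_pi_div_two_sub]
    congr 1
    rw [ha']
    have : (1 + 2 * δ) ≠ 0 := by positivity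
    field_simp
    ring
  have hax : a * (1 / 2 + δ / 2) < Real.pi / 2 := by
    have : a * (1 / 2 + δ) = Real.pi / 2 := by rw [ha']; field_simp
    have h3 : a * (1 / 2 + δ / 2) < a * (1 / 2 + δ) := by
      apply mul_lt_mul_of_pos_left _ ha0
      linarith
    linarith
  set u : ℝ := Real.cos (a * v) with hu
  have hu0 : 0 < u := by
    apply Real.cos_pos_of_mem_Ioo
    constructor
    · have : 0 ≤ a * v := by positivity
      linarith
    · nlinarith
  have hu1 : u ≤ 1 := Real.cos_le_one _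
  set q : ℝ := Real.arccos (et δ / (1 / s)) with hq
  have hηK0 : 0 < et δ / (1 / s) := by positivity
  have hηK1 : et δ / (1 / s) < 1 := by rw [div_lt_one hK0]; linarith
  have hcq : Real.cos q = et δ / (1 / s) := Real.cos_arccos (by linarith) hηK1.le
  have hq0 : 0 < q := Real.arccos_pos.2 hηK1
  have hq1 : q < Real.pi / 2 := Real.arccos_lt_pi_div_two.2 hηK0
  have hqK : Real.cos (a * (1 / 2 + δ / 2)) = 1 / s * Real.cos q := by rw [hcq, hηeq]; field_simp
  set W : ℝ := Real.sqrt (1 - (s * u) ^ 2) / u with hW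
  have hsu : 0 < 1 - (s * u) ^ 2 := by
    have : s * u < 1 := by nlinarith
    have h2 : 0 < s * u := by positivity
    nlinarith
  have hW0 : 0 < W := by
    have := Real.sqrt_pos.2 hsu
    positivity
  have hwt : wt (1 / s) u = W := by
    unfold wt
    rw [hW]
    congr 3
    field_simp
  set R' : ℝ := (1 - δ) * (et δ * W) with hR'
  have hR'0 : 0 < R' := by
    have : 0 < 1 - δ := by linarith
    positivity
  have hR'lt : R' < et δ * W := by
    have : 0 < et δ * W := by positivity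
    rw [hR']
    nlinarith
  obtain ⟨h, hh0, htube⟩ := tube' (a := a) (K := 1 / s) (x0 := 1 / 2 + δ / 2) (q := q) (R' := R')
    (v := v) hK ha0 (by linarith) hv0 hv1.le hax hq0 hq1 hqK (by rw [hηeq, ← hu, hwt]; exact hR'lt)
  refine ⟨δ, δ ^ 2, h, hδ0, hδ1, hε₂0, hε₂1, hh0, fun A hA => ⟨2 * Real.log A / (2 * R'), ?_⟩⟩
  intro Q hQ f hf S hS ⟨B, hB⟩ g0 g1 g2
  have hmain := mult_bound (K := 1 / s) (κ := 2 * κ + δ ^ 2) (ε := δ ^ 2) (R' := R') hK hδ0 hδ1
    (by nlinarith) hε₂0.le hA hQ hf (S := S)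
    (fun x hx => ⟨(hS x hx).2.1, htube x (hS x hx).1 (hS x hx).2.1 (hS x hx).2.2⟩) hB g0 g1 g2
  set N : ℝ := ∑ x ∈ S, (analyticOrderNatAt f x : ℝ) with hN
  have hl : 0 ≤ Real.log Q := Real.log_nonneg hQ
  have e5 : Real.sin (Real.pi * δ / (2 * (1 + 2 * δ))) / (1 / s) = et δ * s := by
    unfold et
    field_simp
  rw [e5] at hmain
  set G : ℝ := gg κ s (Real.cos (Real.pi * v)) + ε with hG
  have h5 : 2 * N * R' ≤ 2 * Real.log A + Real.log Q * (G * (2 * R')) :=
    hmain.trans (by linarith [mul_le_mul_of_nonneg_left hδ hl])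
  have h6 : N * (2 * R') ≤ (G * Real.log Q + 2 * Real.log A / (2 * R')) * (2 * R') := by
    have e7 : 2 * Real.log A / (2 * R') * (2 * R') = 2 * Real.log A := by field_simp
    rw [add_mul, e7]
    linarith
  exact le_of_mul_le_mul_right h6 (by positivity)

end Pool.Agent.U985.BG
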